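import Mathlib

set_option autoImplicit false

/-!
# The operator identity behind the powered Catalan numbers

Linear operators on double sequences `ℕ → ℕ → ℤ`.
-/

namespace Pool.Agent.H384R3.Vinc

/-- Double sequences. -/
abbrev Sq := ℕ → ℕ → ℤ

/-- Linear operators on double sequences. -/
abbrev Op := Module.End ℤ Sq

/-- Shift in the second variable. -/
def dop : Op where
  toFun φ := fun m w => φ m (w + 1)
  map_add' _ _ := rfl
  map_smul' _ _ := rfl

/-- Shift in the first variable. -/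
def Sop : Op where
  toFun φ := fun m w => φ (m + 1) w
  map_add' _ _ := rfl
  map_smul' _ _ := rfl

/-- Right inverse of the shift in the first variable. -/
def Xop : Op where
  toFun φ := fun m w => match m with
    | 0 => 0
    | m + 1 => φ m w
  map_add' φ ψ := by
    funext m w
    cases m <;> simp
  map_smul' c φ := by
    funext m w
    cases m <;> simp

@[simp] lemma dop_apply (φ : Sq) (m w : ℕ) : dop φ m w = φ m (w + 1) := rfl
@[simp] lemma Sop_apply (φ : Sq) (m w : ℕ) : Sop φ m w = φ (m + 1) w := rfl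
@[simp] lemma Xop_zero (φ : Sq) (w : ℕ) : Xop φ 0 w = 0 := rfl
@[simp] lemma Xop_succ (φ : Sq) (m w : ℕ) : Xop φ (m + 1) w = φ m w := rfl

lemma SX : Sop * Xop = 1 := by
  refine LinearMap.ext fun φ => ?_
  funext m w
  rfl

lemma dX : dop * Xop = Xop * dop := by
  refine LinearMap.ext fun φ => ?_
  funext m w
  cases m <;> rfl

lemma dS : dop * Sop = Sop * dop := by
  refine LinearMap.ext fun φ => ?_
  funext m w
  rfl

/-- Locality: the value at `(m, w)` only depends on the values at `(i, j)`, `i ≤ m`, `j ≤ w`. -/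
def Loc (T : Op) : Prop :=
  ∀ (φ ψ : Sq) (m w : ℕ), (∀ i j, i ≤ m → j ≤ w → φ i j = ψ i j) → T φ m w = T ψ m w

lemma Loc.zero_of {T : Op} (hT : Loc T) {φ : Sq} {m w : ℕ}
    (h : ∀ i j, i ≤ m → j ≤ w → φ i j = 0) : T φ m w = 0 := by
  have := hT φ 0 m w (fun i j hi hj => by rw [h i j hi hj]; rfl)
  rw [this, map_zero]
  rfl

lemma Loc.mul {T U : Op} (hT : Loc T) (hU : Loc U) : Loc (T * U) := by
  intro φ ψ m w h
  exact hT _ _ _ _ fun i j hi hj => hU _ _ _ _ fun i' j' hi' hj' =>
    h i' j' (hi'.trans hi) (hj'.trans hj)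

lemma Loc.sub {T U : Op} (hT : Loc T) (hU : Loc U) : Loc (T - U) := by
  intro φ ψ m w h
  have h1 := hT φ ψ m w h
  have h2 := hU φ ψ m w h
  simp only [LinearMap.sub_apply, Pi.sub_apply, h1, h2]

lemma Loc.one : Loc (1 : Op) := fun _ _ m w h => h m w le_rfl le_rfl

lemma Loc.X : Loc Xop := by
  intro φ ψ m w h
  cases m with
  | zero => rfl
  | succ m => exact h m w (Nat.le_succ m) le_rfl

/-- Operators vanishing in degrees `< n`. -/
def Z (n : ℕ) (T : Op) : Prop := ∀ (φ : Sq) (m w : ℕ), m + w < n → T φ m w = 0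

lemma Z.mono {n k : ℕ} {T : Op} (h : Z n T) (hk : k ≤ n) : Z k T :=
  fun φ m w hm => h φ m w (lt_of_lt_of_le hm hk)

lemma Z.add {n : ℕ} {T U : Op} (hT : Z n T) (hU : Z n U) : Z n (T + U) := by
  intro φ m w h
  simp [hT φ m w h, hU φ m w h]

lemma Z.sub {n : ℕ} {T U : Op} (hT : Z n T) (hU : Z n U) : Z n (T - U) := by
  intro φ m w h
  simp [hT φ m w h, hU φ m w h]

lemma Z.neg {n : ℕ} {T : Op} (hT : Z n T) : Z n (-T) := by
  intro φ m w h
  simp [hT φ m w h]

lemma Z.mul_right {n : ℕ} {T : Op} (hT : Z n T) (U : Op) : Z n (T * U) :=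
  fun φ m w h => hT (U φ) m w h

lemma Z.mul_left {n : ℕ} {T U : Op} (hT : Loc T) (hU : Z n U) : Z n (T * U) :=
  fun φ m w h => hT.zero_of fun i j hi hj => hU φ i j (by omega)

lemma Z.X_mul {n : ℕ} {U : Op} (hU : Z n U) : Z (n + 1) (Xop * U) := by
  intro φ m w h
  cases m with
  | zero => rfl
  | succ m => exact hU φ m w (by omega)

/-- The system of relations. -/
structure Sys (a b e v : Op) : Prop where
  loc_a : Loc a
  loc_b : Loc b
  loc_e : Loc e
  loc_v : Loc v
  R1 : dop * a = a * dop + a * b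
  R3 : dop * e = e * dop + e * b
  R3' : ∀ φ m, e φ m 0 = φ m 0
  R2 : ∀ φ : Sq, (∀ i j, φ (i + 1) j = 0) → a φ = b φ + e φ - φ
  R4 : ∀ φ m, a φ (m + 1) 0 = a (Sop φ) m 0 + a (b φ) m 0
  R5a : ∀ φ : Sq, (∀ j, φ 0 j = 0) → (Sop - dop) (a φ) = a ((Sop - dop) φ)
  R5b : ∀ φ : Sq, (∀ j, φ 0 j = 0) → (Sop - dop) (b φ) = b ((Sop - dop) φ)
  R6a : ∀ φ w, a φ 0 w = v φ 0 w
  R6e : ∀ φ w, e φ 0 w = v φ 0 w
  R6b : ∀ φ w, b φ 0 w = φ 0 w
  va : v * a = a * v
  vb : v * b = b * v
  vX : v * Xop = Xop * v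
  dv : dop * v = v * dop + v
  v0 : ∀ φ m, v φ m 0 = φ m 0
  vF : ∀ φ : Sq, (∀ i j, φ (i + 1) j = 0) → ∀ i j, v φ (i + 1) j = 0

namespace Sys

variable {a b e v : Op} (s : Sys a b e v)

include s

lemma dK : dop * (Xop * a) = Xop * a * dop + Xop * a * b := by
  rw [← mul_assoc, dX, mul_assoc, s.R1, mul_add]
  noncomm_ring

lemma vK : v * (Xop * a) = Xop * a * v := by
  rw [← mul_assoc, s.vX, mul_assoc, s.va, mul_assoc]

lemma dP : dop * (e - v) = (e - v) * dop + (e - v) * b + v * b - v := by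
  rw [mul_sub, s.R3, s.dv]
  noncomm_ring

lemma P0 (φ : Sq) (m : ℕ) : (e - v) φ m 0 = 0 := by
  simp [s.R3', s.v0]

lemma loc_K : Loc (Xop * a) := Loc.X.mul s.loc_a

/-- From the left inverse to the right inverse. -/
lemma step1 (n : ℕ) (h : Z n (b - 1 - Xop * a * b)) : Z n (b * (1 - Xop * a) - 1) := by
  have key : b * (1 - Xop * a) - 1 = Xop * a * (b * (1 - Xop * a) - 1) +
      (b - 1 - Xop * a * b) * (1 - Xop * a) := by
    noncomm_ring
  have main : ∀ k, k ≤ n → Z k (b * (1 - Xop * a) - 1) := by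
    intro k
    induction k with
    | zero => intro _ φ m w hm; omega
    | succ k ih =>
      intro hk
      rw [key]
      refine Z.add ?_ ((h.mul_right _).mono hk)
      rw [mul_assoc Xop a]
      exact ((ih (by omega)).mul_left s.loc_a).X_mul
  exact main n le_rfl

lemma step2 (n : ℕ) (h : Z n (b - 1 - Xop * a * b)) :
    Z (n + 1) (Xop * a * (e - v) - (e - v) * (Xop * a)) ∧
    Z n (b * (e - v) - (e - v) * b) := by
  have h2 := s.step1 n h
  set K := Xop * a with hK
  set P := e - v with hP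
  have hlP : Loc P := s.loc_e.sub s.loc_v
  set hh := b - 1 - K * b with hhh
  set h2' := b - b * K - 1 with hh2
  have h2z : Z n h2' := by
    have : h2' = b * (1 - K) - 1 := by rw [hh2]; noncomm_ring
    rw [this]; exact h2
  have hKb : K * b = b - 1 - hh := by rw [hhh]; abel
  have hbK : b * K = b - 1 - h2' := by rw [hh2]; abel
  set Δ := K * P - P * K with hΔ
  set ε := h2' * P * b - b * P * hh - hh * P + P * h2' + v * (h2' - hh) with hε
  have hεz : Z n ε := by
    rw [hε]
    refine Z.add (Z.add (Z.sub (Z.sub ?_ ?_) ?_) ?_) ?_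
    · exact (h2z.mul_right _).mul_right _
    · exact h.mul_left (s.loc_b.mul hlP)
    · exact h.mul_right _
    · exact h2z.mul_left hlP
    · exact (h2z.sub h).mul_left s.loc_v
  have e1 : b * P - P * b = b * Δ * b + h2' * P * b - b * P * hh := by
    have : b * Δ * b = (b * K) * P * b - b * P * (K * b) := by rw [hΔ]; noncomm_ring
    rw [this, hbK, hKb]
    noncomm_ring
  have hdΔ : dop * Δ = Δ * dop + Δ * b + b * Δ * b + ε := by
    have dK := s.dK
    have dP := s.dP
    have vK := s.vK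
    rw [← hK, ← hP] at *
    have t1 : dop * Δ = (dop * K) * P - (dop * P) * K := by rw [hΔ]; noncomm_ring
    rw [t1, dK, dP]
    have t2 : (K * dop + K * b) * P - (P * dop + P * b + v * b - v) * K =
        K * (dop * P) + (K * b) * P - P * (dop * K) - P * (b * K) - v * (b * K) + v * K := by
      noncomm_ring
    rw [t2, dK, dP]
    have t3 : K * (P * dop + P * b + v * b - v) + K * b * P - P * (K * dop + K * b) -
        P * (b * K) - v * (b * K) + v * K =
        Δ * dop + (K * P) * b + (K * v) * b - K * v + (K * b) * P - P * (K * b)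
          - P * (b * K) - v * (b * K) + v * K := by
      rw [hΔ]; noncomm_ring
    rw [t3, ← vK]
    have t4 : K * P = Δ + P * K := by rw [hΔ]; abel
    rw [t4]
    have t5 : Δ * dop + (Δ + P * K) * b + v * K * b - v * K + K * b * P - P * (K * b) -
        P * (b * K) - v * (b * K) + v * K =
        Δ * dop + Δ * b + P * (K * b) + v * (K * b) + (K * b) * P - P * (K * b) -
        P * (b * K) - v * (b * K) := by
      noncomm_ring
    rw [t5, hKb, hbK]
    have t6 : b * Δ * b = b * P - P * b - h2' * P * b + b * P * hh := by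
      rw [e1]; abel
    rw [t6, hε]
    noncomm_ring
  have hΔ0 : ∀ (φ : Sq) (m : ℕ), Δ φ m 0 = 0 := by
    intro φ m
    have t1 : (K * P) φ m 0 = 0 := by
      refine s.loc_K.zero_of (φ := P φ) fun i j _ hj => ?_
      have : j = 0 := by omega
      subst this
      exact s.P0 φ i
    have t2 : (P * K) φ m 0 = 0 := s.P0 (K φ) m
    rw [hΔ]
    simp only [LinearMap.sub_apply, Pi.sub_apply, t1, t2, sub_zero]
  have hΔz : Z (n + 1) Δ := by
    have main : ∀ w : ℕ, ∀ (φ : Sq) (m : ℕ), m + w < n + 1 → Δ φ m w = 0 := by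
      intro w
      induction w using Nat.strong_induction_on with
      | _ w ih =>
        intro φ m hm
        cases w with
        | zero => exact hΔ0 φ m
        | succ w =>
          have t1 : Δ φ m (w + 1) = (dop * Δ) φ m w := rfl
          rw [t1, hdΔ]
          have u1 : (Δ * dop) φ m w = 0 := ih w (by omega) (dop φ) m (by omega)
          have u2 : (Δ * b) φ m w = 0 := ih w (by omega) (b φ) m (by omega)
          have u3 : (b * Δ * b) φ m w = 0 := by
            refine s.loc_b.zero_of (φ := Δ (b φ)) fun i j hi hj => ?_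
            exact ih j (by omega) (b φ) i (by omega)
          have u4 : ε φ m w = 0 := hεz φ m w (by omega)
          simp only [LinearMap.add_apply, Pi.add_apply, u1, u2, u3, u4, add_zero]
    exact fun φ m w hm => main w φ m hm
  refine ⟨hΔz, ?_⟩
  rw [e1]
  refine Z.sub (Z.add ?_ ?_) ?_
  · exact ((hΔz.mono (Nat.le_succ n)).mul_left s.loc_b).mul_right _
  · exact (h2z.mul_right _).mul_right _
  · exact h.mul_left (s.loc_b.mul hlP)

end Sys

end Pool.Agent.H384R3.Vinc
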