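import Pool.Agent.H384R3.Vinc.Alg

set_option autoImplicit false

/-!
# The operator identity `b = 1 + X a b`
-/

namespace Pool.Agent.H384R3.Vinc

namespace Sys

variable {a b e v : Op} (s : Sys a b e v)

lemma Z.X_shift {n : ℕ} {T : Op} (hT : Z n T) : Z n (Xop * (Sop - dop) * T) := by
  intro φ m w h
  cases m with
  | zero => rfl
  | succ m =>
    have h1 : (Xop * (Sop - dop) * T) φ (m + 1) w = T φ (m + 1) w - T φ m (w + 1) := rfl
    rw [h1, hT φ (m + 1) w (by omega), hT φ m (w + 1) (by omega), sub_zero]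

include s

lemma XS_a (φ : Sq) (h0 : ∀ i j, φ (i + 1) j = 0) : Xop (Sop (a φ)) = a φ - v φ := by
  funext m w
  cases m with
  | zero => simp [s.R6a]
  | succ m => simp [s.vF φ h0]

lemma v_b_zero (φ : Sq) (w : ℕ) : v (b φ) 0 w = v φ 0 w := by
  have h : v (b φ) = b (v φ) := by
    have := congrArg (fun T : Op => T φ) s.vb
    exact this
  rw [h, s.R6b]

lemma XS_ab (φ : Sq) (h0 : ∀ i j, φ (i + 1) j = 0) :
    Xop (Sop (a (b φ))) = a (b φ) - v φ := by
  funext m w
  cases m with
  | zero => simp [s.R6a, s.v_b_zero]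
  | succ m => simp [s.vF φ h0]

/-- The remainder for sequences supported on `m = 0`. -/
lemma step3 (n : ℕ) (h : Z n (b - 1 - Xop * a * b)) (φ : Sq) (h0 : ∀ i j, φ (i + 1) j = 0)
    (m w : ℕ) (hmw : m + w < n + 1) :
    (e - v) φ m w = (a φ - v φ - Xop (a (b φ))) m w := by
  obtain ⟨-, hPb⟩ := s.step2 n h
  have h2 := s.step1 n h
  -- notation
  set Q : Op := a - v - Xop * a * b with hQ
  have hQφ : ∀ ψ : Sq, Q ψ = a ψ - v ψ - Xop (a (b ψ)) := fun ψ => rfl
  rw [← hQφ]
  set P := e - v with hP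
  -- derivative of `P`
  have dPφ : ∀ ψ : Sq, ∀ m w, m + w < n →
      P ψ m (w + 1) = P (dop ψ) m w + b (P ψ) m w + (b (v ψ) m w - v ψ m w) := by
    intro ψ m w hm
    have t1 : P ψ m (w + 1) = (dop * P) ψ m w := rfl
    rw [t1, hP, s.dP, ← hP]
    have t2 : (b * P - P * b) ψ m w = 0 := hPb ψ m w hm
    have t3 : (b * P - P * b) ψ m w = b (P ψ) m w - P (b ψ) m w := rfl
    have t4 : (P * dop + P * b + v * b - v) ψ m w =
      P (dop ψ) m w + P (b ψ) m w + (v * b) ψ m w - v ψ m w := rfl
    rw [t4, s.vb]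
    have t5 : (b * v) ψ m w = b (v ψ) m w := rfl
    rw [t5]
    linarith
  -- derivative of `Q`
  have dQφ : ∀ ψ : Sq, (∀ i j, ψ (i + 1) j = 0) → ∀ m w, m + w < n →
      Q ψ m (w + 1) = Q (dop ψ) m w + b (Q ψ) m w + (b (v ψ) m w - v ψ m w) := by
    intro ψ hψ m w hm
    set α := a (b ψ) with hα
    set γ := α - dop (Xop α) with hγ
    set hh := b - 1 - Xop * a * b with hhh
    have e1 : b ψ = ψ + Xop α + hh ψ := by
      have : hh ψ = b ψ - ψ - Xop α := rfl
      rw [this]; abel
    have e2 : α = a ψ + a (Xop α) + (a * hh) ψ := by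
      conv_lhs => rw [hα, e1]
      rw [map_add, map_add]; rfl
    -- `X (S - d) α = γ - v ψ`
    have e3 : Xop ((Sop - dop) α) = γ - v ψ := by
      have t : Xop ((Sop - dop) α) = Xop (Sop α) - Xop (dop α) := by
        rw [LinearMap.sub_apply, map_sub]
      have t2 : Xop (dop α) = dop (Xop α) := by
        have := congrArg (fun T : Op => T α) dX
        exact this.symm
      rw [t, s.XS_ab ψ hψ, t2, hγ]
      abel
    have e4 : (Sop - dop) (a (Xop α)) = a γ := by
      rw [s.R5a (Xop α) (fun j => rfl)]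
      rfl
    -- `X (S - d) a ψ = Q ψ - K d ψ`
    have e5 : Xop ((Sop - dop) (a ψ)) = Q ψ - Xop (a (dop ψ)) := by
      have t : Xop ((Sop - dop) (a ψ)) = Xop (Sop (a ψ)) - Xop (dop (a ψ)) := by
        rw [LinearMap.sub_apply, map_sub]
      have t3 : dop (a ψ) = a (dop ψ) + α := by
        have := congrArg (fun T : Op => T ψ) s.R1
        exact this
      rw [t, s.XS_a ψ hψ, t3, map_add, hQφ]
      abel
    have e6 : γ - Xop (a γ) = Q ψ - Xop (a (dop ψ)) + v ψ + (Xop * (Sop - dop) * (a * hh)) ψ := by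
      have t : Xop ((Sop - dop) α) = Xop ((Sop - dop) (a ψ)) + Xop ((Sop - dop) (a (Xop α))) +
          (Xop * (Sop - dop) * (a * hh)) ψ := by
        conv_lhs => rw [e2]
        rw [map_add, map_add, map_add, map_add]
        rfl
      rw [e3, e5, e4] at t
      linear_combination t
    have ht : Z n (b * (Xop * (Sop - dop) * (a * hh))) :=
      (Z.X_shift (h.mul_left s.loc_a)).mul_left s.loc_b
    -- multiply by `b`
    have e7 : γ m w = b (Q ψ) m w - (b (dop ψ) m w - dop ψ m w) + b (v ψ) m w := by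
      have t := congrArg (fun φ => b φ m w) e6
      have t' : b (γ - Xop (a γ)) m w = b (Q ψ) m w - (b * (Xop * a)) (dop ψ) m w + b (v ψ) m w +
          (b * (Xop * (Sop - dop) * (a * hh))) ψ m w := by
        have t1 : b (γ - Xop (a γ)) m w = b (Q ψ - Xop (a (dop ψ)) + v ψ +
          (Xop * (Sop - dop) * (a * hh)) ψ) m w := t
        rw [t1, map_add, map_add, map_sub]
        rfl
      rw [ht ψ m w hm, add_zero] at t'
      have t2 : (b * (1 - Xop * a) - 1) γ m w = 0 := h2 γ m w hm
      have t3 : (b * (1 - Xop * a) - 1) γ m w = b (γ - Xop (a γ)) m w - γ m w := rfl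
      have t4 : (b * (1 - Xop * a) - 1) (dop ψ) m w = 0 := h2 (dop ψ) m w hm
      have t5 : (b * (1 - Xop * a) - 1) (dop ψ) m w =
          b (dop ψ) m w - (b * (Xop * a)) (dop ψ) m w - dop ψ m w := by
        have : b * (1 - Xop * a) - 1 = b - b * (Xop * a) - 1 := by noncomm_ring
        rw [this]; rfl
      linarith
    have e8 : dop (Q ψ) = a (dop ψ) - v (dop ψ) - v ψ + γ := by
      have t3 : dop (a ψ) = a (dop ψ) + α := by
        have := congrArg (fun T : Op => T ψ) s.R1
        exact this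
      have t4 : dop (v ψ) = v (dop ψ) + v ψ := by
        have := congrArg (fun T : Op => T ψ) s.dv
        exact this
      rw [hQφ, map_sub, map_sub, t3, t4, hγ]
      abel
    have e9 : Q ψ m (w + 1) = a (dop ψ) m w - v (dop ψ) m w - v ψ m w + γ m w := by
      have := congrArg (fun φ : Sq => φ m w) e8
      exact this
    have e10 : Q (dop ψ) m w = a (dop ψ) m w - v (dop ψ) m w - Xop (a (b (dop ψ))) m w := rfl
    have e11 : hh (dop ψ) m w = 0 := h (dop ψ) m w hm
    have e12 : hh (dop ψ) m w = b (dop ψ) m w - dop ψ m w - Xop (a (b (dop ψ))) m w := rfl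
    rw [e9, e10, e7]
    linarith
  -- values at `w = 0`
  have Q0 : ∀ ψ : Sq, (∀ i j, ψ (i + 1) j = 0) → ∀ m, Q ψ m 0 = 0 := by
    intro ψ hψ m
    rw [hQφ]
    cases m with
    | zero => simp [s.R6a]
    | succ m =>
      have t1 : Sop ψ = 0 := by
        funext i j
        exact hψ i j
      have t2 := s.R4 ψ m
      rw [t1, map_zero] at t2
      simp only [Pi.sub_apply, Xop_succ, s.vF ψ hψ, t2]
      simp
  -- the comparison
  have main : ∀ w : ℕ, ∀ ψ : Sq, (∀ i j, ψ (i + 1) j = 0) → ∀ m, m + w < n + 1 →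
      P ψ m w = Q ψ m w := by
    intro w
    induction w using Nat.strong_induction_on with
    | _ w ih =>
      intro ψ hψ m hm
      cases w with
      | zero => rw [Q0 ψ hψ, hP, s.P0]
      | succ w =>
        rw [dPφ ψ m w (by omega), dQφ ψ hψ m w (by omega),
          ih w (by omega) (dop ψ) (fun i j => hψ i (j + 1)) m (by omega)]
        have : b (P ψ) m w = b (Q ψ) m w := by
          refine s.loc_b _ _ _ _ fun i j hi hj => ?_
          exact ih j (by omega) ψ hψ i (by omega)
        rw [this]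
  exact main w φ h0 m hmw

lemma step4 (n : ℕ) (h : Z n (b - 1 - Xop * a * b)) (φ : Sq) (h0 : ∀ i j, φ (i + 1) j = 0)
    (m w : ℕ) (hmw : m + w < n + 1) :
    (b - 1 - Xop * a * b) φ m w = 0 := by
  have t : (b - 1 - Xop * a * b) φ m w = b φ m w - φ m w - Xop (a (b φ)) m w := rfl
  rw [t]
  cases m with
  | zero => simp [s.R6b]
  | succ m =>
    have h3 := s.step3 n h φ h0 (m + 1) w hmw
    have h4 := congrArg (fun ψ : Sq => ψ (m + 1) w) (s.R2 φ h0)
    have h4' : a φ (m + 1) w = b φ (m + 1) w + e φ (m + 1) w - φ (m + 1) w := h4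
    have h3' : e φ (m + 1) w - v φ (m + 1) w =
      a φ (m + 1) w - v φ (m + 1) w - Xop (a (b φ)) (m + 1) w := h3
    linarith

lemma step5 (n : ℕ) (h : Z n (b - 1 - Xop * a * b)) (φ : Sq) (h0 : ∀ j, φ 0 j = 0) :
    ∀ m w : ℕ, m + w < n + 1 → (b - 1 - Xop * a * b) φ m w = 0 := by
  have t : ∀ (ψ : Sq) m w,
    (b - 1 - Xop * a * b) ψ m w = b ψ m w - ψ m w - Xop (a (b ψ)) m w := fun _ _ _ => rfl
  intro m
  induction m with
  | zero =>
    intro w _
    rw [t]
    simp [s.R6b]
  | succ m ih =>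
    intro w hm
    have ih' := ih (w + 1) (by omega)
    have hn := h ((Sop - dop) φ) m w (by omega)
    rw [t] at ih' hn ⊢
    have hb0 : ∀ j, b φ 0 j = 0 := fun j => by rw [s.R6b, h0]
    have r1 : b φ (m + 1) w - b φ m (w + 1) = b ((Sop - dop) φ) m w :=
      congrArg (fun ψ : Sq => ψ m w) (s.R5b φ h0)
    have r2 : ∀ m w, a (b φ) (m + 1) w - a (b φ) m (w + 1) = a (b ((Sop - dop) φ)) m w := by
      intro m w
      have u1 : a (b φ) (m + 1) w - a (b φ) m (w + 1) = a ((Sop - dop) (b φ)) m w :=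
        congrArg (fun ψ : Sq => ψ m w) (s.R5a (b φ) hb0)
      rw [u1, s.R5b φ h0]
    have r3 : (Sop - dop) φ m w = φ (m + 1) w - φ m (w + 1) := rfl
    rw [r3] at hn
    have r4 : Xop (a (b φ)) m (w + 1) + Xop (a (b ((Sop - dop) φ))) m w =
        a (b φ) m w := by
      cases m with
      | zero =>
        simp only [Xop_zero, s.R6a, s.v_b_zero, add_zero]
        exact (s.loc_v.zero_of fun i j hi _ => by
          have : i = 0 := by omega
          subst this; exact h0 j).symm
      | succ m =>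
        simp only [Xop_succ]
        have := r2 m w
        linarith
    rw [Xop_succ]
    linarith

theorem main : b = 1 + Xop * a * b := by
  have key : ∀ n, Z n (b - 1 - Xop * a * b) := by
    intro n
    induction n with
    | zero => intro φ m w h; omega
    | succ n ih =>
      intro φ m w hm
      have hφ : φ = (φ - Xop (Sop φ)) + Xop (Sop φ) := by abel
      rw [hφ, map_add, Pi.add_apply, Pi.add_apply]
      have h1 := s.step4 n ih (φ - Xop (Sop φ)) (fun i j => by simp) m w hm
      have h2 := s.step5 n ih (Xop (Sop φ)) (fun j => rfl) m w hm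
      rw [h1, h2, add_zero]
  have h0 : b - 1 - Xop * a * b = 0 := by
    refine LinearMap.ext fun φ => ?_
    funext m w
    exact key (m + w + 1) φ m w (by omega)
  rw [add_comm]
  exact sub_eq_iff_eq_add.mp (sub_eq_zero.mp h0)

end Sys

end Pool.Agent.H384R3.Vinc
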