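import Pool.Agent.H384R3.Vinc.Rel2

set_option autoImplicit false

/-!
# Counting by right-to-left minima
-/

open Finset

namespace Pool.Agent.H384R3.Vinc

namespace Sys

variable {a b e v : Op} (s : Sys a b e v)

include s

lemma bK : b * (Xop * a) = b - 1 := by
  have h : b * (1 - Xop * a) - 1 = 0 := by
    refine LinearMap.ext fun φ => ?_
    funext m w
    refine s.step1 (m + w + 1) ?_ φ m w (by omega)
    have : b - 1 - Xop * a * b = 0 := by
      have := s.main
      rw [sub_sub, sub_eq_zero]
      exact this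
    rw [this]
    intro φ m w _
    rfl
  have h2 : b * (1 - Xop * a) - 1 = b - 1 - b * (Xop * a) := by noncomm_ring
  rw [h2, sub_eq_zero] at h
  exact h.symm

end Sys

/-- The iterates. -/
noncomputable def r (a : Op) : ℕ → Sq
  | 0 => fun m _ => if m = 0 then 1 else 0
  | k + 1 => Xop (a (r a k))

namespace Sys

variable {a b e v : Op} (s : Sys a b e v)

lemma r_succ_zero (k w : ℕ) : r a (k + 1) 0 w = 0 := rfl

lemma r_succ_succ (k m w : ℕ) : r a (k + 1) (m + 1) w = a (r a k) m w := rfl

include s

lemma b_r (k : ℕ) : b (r a k) = r a k + b (r a (k + 1)) := by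
  have h : b (Xop (a (r a k))) = b (r a k) - r a k := by
    have := congrArg (fun T : Op => T (r a k)) s.bK
    exact this
  have h2 : r a (k + 1) = Xop (a (r a k)) := rfl
  rw [h2, h]
  abel

lemma r_small : ∀ (k m w : ℕ), m < k → r a k m w = 0 := by
  intro k
  induction k with
  | zero => intro m w h; omega
  | succ k ih =>
    intro m w h
    cases m with
    | zero => rfl
    | succ m =>
      rw [r_succ_succ]
      exact s.loc_a.zero_of fun i j hi _ => ih i j (by omega)

lemma br_small (k m w : ℕ) (h : m < k) : b (r a k) m w = 0 :=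
  s.loc_b.zero_of fun i j hi _ => s.r_small k i j (by omega)

lemma br_sum (n : ℕ) : ∀ t k : ℕ, k + t = n + 1 →
    b (r a k) n 0 = ∑ j ∈ Ico k (n + 1), r a j n 0 := by
  intro t
  induction t with
  | zero =>
    intro k hk
    have : k = n + 1 := by omega
    subst this
    rw [Ico_self, sum_empty, s.br_small _ _ _ (by omega)]
  | succ t ih =>
    intro k hk
    rw [Finset.sum_eq_sum_Ico_succ_bot (by omega), ← ih (k + 1) (by omega), s.b_r k]
    rfl

lemma key : ∀ (k m : ℕ), a (r a k) m 0 = ((k : ℤ) + 1) * b (r a (k + 1)) m 0 + r a k m 0 := by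
  intro k
  induction k with
  | zero =>
    intro m
    have h1 := congrArg (fun ψ : Sq => ψ m 0) (s.R2 (r a 0) (fun i j => by simp [r]))
    have h1' : a (r a 0) m 0 = b (r a 0) m 0 + e (r a 0) m 0 - r a 0 m 0 := h1
    rw [s.R3'] at h1'
    have h2 := congrArg (fun ψ : Sq => ψ m 0) (s.b_r 0)
    have h2' : b (r a 0) m 0 = r a 0 m 0 + b (r a 1) m 0 := h2
    push_cast
    linarith
  | succ k ih =>
    intro m
    cases m with
    | zero =>
      rw [s.R6a, s.v0, s.R6b]
      simp [r]
    | succ m =>
      rw [s.R4]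
      have h1 : a (Sop (r a (k + 1))) m 0 =
          a (((k : ℤ) + 1) • b (r a (k + 1)) + r a k) m 0 := by
        refine s.loc_a _ _ _ _ fun i j _ hj => ?_
        have hj0 : j = 0 := by omega
        subst hj0
        exact ih i
      rw [h1, map_add, map_smul]
      have h2 : a (b (r a (k + 1))) m 0 = b (r a (k + 2)) (m + 1) 0 := by
        have h3 := congrArg (fun T : Op => T (r a (k + 1)) (m + 1) 0) s.main
        have h3' : b (r a (k + 1)) (m + 1) 0 =
          r a (k + 1) (m + 1) 0 + a (b (r a (k + 1))) m 0 := h3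
        have h4 := congrArg (fun ψ : Sq => ψ (m + 1) 0) (s.b_r (k + 1))
        have h4' : b (r a (k + 1)) (m + 1) 0 =
          r a (k + 1) (m + 1) 0 + b (r a (k + 2)) (m + 1) 0 := h4
        linarith
      have h5 : (((k : ℤ) + 1) • a (b (r a (k + 1))) + a (r a k)) m 0 =
        ((k : ℤ) + 1) * a (b (r a (k + 1))) m 0 + a (r a k) m 0 := rfl
      rw [h5, h2, r_succ_succ]
      push_cast
      ring

theorem recur (k n : ℕ) :
    r a (k + 1) (n + 1) 0 = ((k : ℤ) + 1) * ∑ j ∈ Ico (k + 1) (n + 1), r a j n 0 + r a k n 0 := by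
  rw [r_succ_succ, s.key]
  congr 2
  by_cases h : k + 1 ≤ n + 1
  · exact s.br_sum n (n + 1 - (k + 1)) (k + 1) (by omega)
  · rw [s.br_small _ _ _ (by omega), Ico_eq_empty (by omega), sum_empty]

end Sys

/-- Number of right-to-left minima. -/
def rlm : List ℤ → ℕ
  | [] => 0
  | a :: l => (if ∀ x ∈ l, a < x then 1 else 0) + rlm l

lemma rlm_ne_zero : ∀ (a : ℤ) (l : List ℤ), rlm (a :: l) ≠ 0
  | a, [] => by simp [rlm]
  | a, b :: l => by
    have h1 : rlm (a :: b :: l) = (if ∀ x ∈ b :: l, a < x then 1 else 0) + rlm (b :: l) := rfl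
    have := rlm_ne_zero b l
    omega

lemma rlm_split {z : ℤ} : ∀ {α β : List ℤ}, (∀ x ∈ α, z < x) → (∀ x ∈ β, z < x) →
    rlm (α ++ z :: β) = rlm β + 1
  | [], β, _, hβ => by
    have h1 : rlm (z :: β) = (if ∀ x ∈ β, z < x then 1 else 0) + rlm β := rfl
    rw [List.nil_append, h1, if_pos hβ, add_comm]
  | a :: α, β, hα, hβ => by
    have h1 : rlm (a :: (α ++ z :: β)) =
      (if ∀ x ∈ α ++ z :: β, a < x then 1 else 0) + rlm (α ++ z :: β) := rfl
    rw [List.cons_append, h1, rlm_split (fun x hx => hα x (by simp [hx])) hβ, if_neg, zero_add]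
    intro h
    have h2 := h z (by simp)
    have h3 := hα a (by simp)
    omega

open Classical in
/-- Number of avoiders using all of `V`, with `k` right-to-left minima. -/
noncomputable def Nk (k : ℕ) (V : Finset ℤ) : ℤ :=
  ∑ τ ∈ W V, if its V τ = ∅ ∧ Av τ ∧ rlm τ = k then 1 else 0

lemma pc_pos {V : Finset ℤ} (h : ∀ x ∈ V, 0 < x) : pc V = V.card := by
  unfold pc
  rw [filter_true_of_mem h]

lemma nc_pos {V : Finset ℤ} (h : ∀ x ∈ V, 0 < x) : nc V = 0 := by
  unfold nc
  rw [filter_false_of_mem (fun x hx => by have := h x hx; omega), card_empty]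

open Classical in
theorem Nk_eq : ∀ (k : ℕ) (V : Finset ℤ), (∀ x ∈ V, 0 < x) →
    Nk k V = r (op (Gc tops)) k V.card 0 := by
  intro k
  induction k with
  | zero =>
    intro V hV
    unfold Nk
    have hnil : [] ∈ W V := by rw [mem_W]; simp
    rw [Finset.sum_eq_single []]
    · rw [its_nil]
      simp only [r, Av, rlm, and_true, Finset.card_eq_zero]
    · intro τ _ hne
      refine if_neg fun h => ?_
      cases τ with
      | nil => exact hne rfl
      | cons x l => exact rlm_ne_zero x l h.2.2
    · intro h; exact absurd hnil h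
  | succ k ih =>
    intro V hV
    rcases V.eq_empty_or_nonempty with h | h
    · subst h
      rw [card_empty, Sys.r_succ_zero]
      unfold Nk
      refine Finset.sum_eq_zero fun τ hτ => ?_
      refine if_neg fun h => ?_
      cases τ with
      | nil => simp [rlm] at h
      | cons x l => exact absurd ((mem_W.mp hτ).2 x (by simp)) (notMem_empty x)
    · set z := V.min' h with hz
      have hzV : z ∈ V := V.min'_mem h
      set U := V.erase z with hU
      have hVU : V = insert z U := (insert_erase hzV).symm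
      have hzU : z ∉ U := notMem_erase z V
      have hzlt : ∀ x ∈ U, z < x := by
        intro x hx
        have h1 := V.min'_le x (mem_of_mem_erase hx)
        have h2 := ne_of_mem_erase hx
        omega
      have hUpos : ∀ x ∈ U, 0 < x := fun x hx => hV x (mem_of_mem_erase hx)
      have h0U : (0 : ℤ) ∉ U := fun h => lt_irrefl _ (hUpos 0 h)
      rw [hVU, card_insert_of_notMem hzU, Sys.r_succ_succ]
      have h1 : op (Gc tops) (r (op (Gc tops)) k) U.card 0 =
          SG (Gc tops) (r (op (Gc tops)) k) U :=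
        op_eq (inv_Gc CR_tops) _ h0U (pc_pos hUpos) (nc_pos hUpos)
      rw [h1]
      unfold Nk SG
      rw [sum_W_insert hzU]
      have h2 : (∑ τ ∈ W U, if its (insert z U) τ = ∅ ∧ Av τ ∧ rlm τ = k + 1 then
          (1 : ℤ) else 0) = 0 := by
        refine Finset.sum_eq_zero fun τ hτ => ?_
        refine if_neg fun h => ?_
        rw [its_insert hzU hτ] at h
        exact insert_ne_empty _ _ h.1
      rw [h2, zero_add]
      refine Finset.sum_congr rfl fun α hα => ?_
      have hJpos : ∀ x ∈ its U α, 0 < x := fun x hx => hUpos x (its_sub _ _ hx)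
      have hα' : ∀ x ∈ α, z < x := fun x hx => hzlt x ((mem_W.mp hα).2 x hx)
      have key : ∀ β ∈ W (its U α), ((its (its U α) β = ∅ ∧ Av (α ++ z :: β) ∧
          rlm (α ++ z :: β) = k + 1) ↔ (Gc tops (its U α) α ∧ (its (its U α) β = ∅ ∧ Av β ∧
          rlm β = k))) := by
        intro β hβ
        have hβ' : ∀ x ∈ β, z < x :=
          fun x hx => hzlt x (its_sub _ _ ((mem_W.mp hβ).2 x hx))
        rw [Av_split (split_nodup hzU hα hβ) hα' hβ', rlm_split hα' hβ', add_left_inj]
        unfold Gc
        constructor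
        · rintro ⟨h3, ⟨h4, h5, h6⟩, h7⟩
          refine ⟨⟨h4, fun c hc => ⟨?_, fun x hx => ?_⟩⟩, h3, h5, h7⟩
          · have := hUpos c ((mem_W.mp hα).2 c (tops_sub _ c hc))
            exact this
          · by_cases hxβ : x ∈ β
            · exact h6 c hc x hxβ
            · have : x ∈ its (its U α) β := mem_its.mpr ⟨hx, hxβ⟩
              rw [h3] at this
              exact absurd this (notMem_empty x)
        · rintro ⟨⟨h3, h4⟩, h5, h6, h7⟩
          exact ⟨h5, ⟨h3, h6, fun c hc x hx => (h4 c hc).2 x ((mem_W.mp hβ).2 x hx)⟩, h7⟩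
      by_cases h3 : Gc tops (its U α) α
      · rw [if_pos h3, pc_pos hJpos, nc_pos hJpos, ← ih _ hJpos]
        unfold Nk
        refine Finset.sum_congr rfl fun β hβ => ?_
        rw [its_split hzU]
        by_cases h4 : its (its U α) β = ∅ ∧ Av β ∧ rlm β = k
        · rw [if_pos h4, if_pos ((key β hβ).mpr ⟨h3, h4⟩)]
        · rw [if_neg h4, if_neg (fun h5 => h4 ((key β hβ).mp h5).2)]
      · rw [if_neg h3]
        refine Finset.sum_eq_zero fun β hβ => ?_
        rw [its_split hzU]
        exact if_neg fun h5 => h3 ((key β hβ).mp h5).1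

end Pool.Agent.H384R3.Vinc
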