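import Mathlib

set_option autoImplicit false

/-!
# Avoiders of 23-1-4 and the powered Catalan tree
-/

namespace Pool.Agent.H384R3.Vinc

/-- The permutation `σ` of `{0, ..., n-1}` contains the vincular pattern `23-1-4`: there are
positions `i`, `i + 1`, `j`, `k` with `i + 1 < j < k` and `σ j < σ i < σ (i + 1) < σ k`. -/
def Contains2314 {n : ℕ} (σ : Equiv.Perm (Fin n)) : Prop :=
  ∃ i i' j k : Fin n, (i' : ℕ) = (i : ℕ) + 1 ∧ i' < j ∧ j < k ∧
    σ j < σ i ∧ σ i < σ i' ∧ σ i' < σ k

/-- The number of right-to-left minima of `σ`: the positions `i` such that `σ i < σ j` for all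
later positions `j`. -/
def rlMinima {n : ℕ} (σ : Equiv.Perm (Fin n)) : ℕ :=
  (Finset.univ.filter fun i : Fin n => ∀ j : Fin n, i < j → σ i < σ j).card

/-- The labels of the children of a vertex with label `k`: one label `1`, exactly `i` labels `i`
for each `2 ≤ i ≤ k`, and one label `k + 1`. -/
def childLabels (k : ℕ) : Multiset ℕ :=
  {1} + ∑ i ∈ Finset.Icc 2 k, Multiset.replicate i i + {k + 1}

/-- The labels of the vertices at level `n` (the root, with label `1`, is at level `1`; there is
nothing at level `0`). -/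
def levelLabels : ℕ → Multiset ℕ
  | 0 => 0
  | 1 => {1}
  | n + 2 => (levelLabels (n + 1)).bind childLabels

end Pool.Agent.H384R3.Vinc
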