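import Pool.Agent.H384R3.Vinc.Words

set_option autoImplicit false

/-!
# Operators defined by sums over words
-/

open Finset

namespace Pool.Agent.H384R3.Vinc

open Classical in
/-- Sum over the words of `V` satisfying a condition, weighted by the unused elements. -/
noncomputable def SG (G : Finset ℤ → List ℤ → Prop) (φ : Sq) (V : Finset ℤ) : ℤ :=
  ∑ τ ∈ W V, if G (its V τ) τ then φ (pc (its V τ)) (nc (its V τ)) else 0

/-- Invariance under order preserving maps fixing `0`. -/
def Inv (G : Finset ℤ → List ℤ → Prop) : Prop :=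
  ∀ f : ℤ → ℤ, StrictMono f → f 0 = 0 → ∀ J τ, G (J.image f) (τ.map f) ↔ G J τ

lemma sum_W_image {f : ℤ → ℤ} (hf : StrictMono f) (V : Finset ℤ) (F : List ℤ → ℤ) :
    ∑ τ ∈ W (V.image f), F τ = ∑ τ ∈ W V, F (τ.map f) := by
  symm
  refine Finset.sum_bij (fun τ _ => τ.map f) ?_ ?_ ?_ ?_
  · intro τ hτ
    rw [mem_W] at hτ ⊢
    refine ⟨hτ.1.map hf.injective, fun x hx => ?_⟩
    obtain ⟨y, hy, rfl⟩ := List.mem_map.mp hx
    exact mem_image_of_mem f (hτ.2 y hy)
  · intro τ _ τ' _ h
    exact List.map_injective_iff.mpr hf.injective h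
  · intro τ' hτ'
    rw [mem_W] at hτ'
    have h1 : τ' ∈ Set.range (List.map f) := by
      rw [Set.range_list_map]
      intro x hx
      obtain ⟨y, _, hy⟩ := mem_image.mp (hτ'.2 x hx)
      exact ⟨y, hy⟩
    obtain ⟨τ, rfl⟩ := h1
    refine ⟨τ, ?_, rfl⟩
    rw [mem_W]
    refine ⟨List.Nodup.of_map f hτ'.1, fun x hx => ?_⟩
    obtain ⟨y, hy, hxy⟩ := mem_image.mp (hτ'.2 (f x) (List.mem_map_of_mem hx))
    exact hf.injective hxy ▸ hy
  · intro τ _
    rfl

lemma pc_image {f : ℤ → ℤ} (hf : StrictMono f) (h0 : f 0 = 0) (V : Finset ℤ) :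
    pc (V.image f) = pc V := by
  unfold pc
  rw [filter_image, card_image_of_injective _ hf.injective]
  congr 1
  refine filter_congr fun x _ => ?_
  have := hf.lt_iff_lt (a := 0) (b := x)
  rw [h0] at this
  exact this

lemma nc_image {f : ℤ → ℤ} (hf : StrictMono f) (h0 : f 0 = 0) (V : Finset ℤ) :
    nc (V.image f) = nc V := by
  unfold nc
  rw [filter_image, card_image_of_injective _ hf.injective]
  congr 1
  refine filter_congr fun x _ => ?_
  have := hf.lt_iff_lt (a := x) (b := 0)
  rw [h0] at this
  exact this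

lemma its_image {f : ℤ → ℤ} (hf : StrictMono f) (V : Finset ℤ) (τ : List ℤ) :
    its (V.image f) (τ.map f) = (its V τ).image f := by
  ext x
  simp only [mem_its, mem_image]
  constructor
  · rintro ⟨⟨y, hy, rfl⟩, h⟩
    exact ⟨y, ⟨hy, fun h' => h (List.mem_map_of_mem h')⟩, rfl⟩
  · rintro ⟨y, ⟨hy, h⟩, rfl⟩
    refine ⟨⟨y, hy, rfl⟩, fun h' => h ?_⟩
    exact (List.mem_map_of_injective hf.injective).mp h'

lemma SG_image {G : Finset ℤ → List ℤ → Prop} (hG : Inv G) (φ : Sq) {f : ℤ → ℤ}
    (hf : StrictMono f) (h0 : f 0 = 0) (V : Finset ℤ) : SG G φ (V.image f) = SG G φ V := by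
  unfold SG
  rw [sum_W_image hf]
  refine Finset.sum_congr rfl fun τ _ => ?_
  rw [its_image hf, pc_image hf h0, nc_image hf h0]
  have := hG f hf h0 (its V τ) τ
  by_cases h : G (its V τ) τ
  · rw [if_pos h, if_pos (this.mpr h)]
  · rw [if_neg h, if_neg (fun h' => h (this.mp h'))]

/-- The standard set with `m` positive and `w` negative elements. -/
def canon (m w : ℕ) : Finset ℤ :=
  (range m).image (fun i : ℕ => (i : ℤ) + 1) ∪ (range w).image (fun i : ℕ => -((i : ℤ) + 1))

lemma mem_canon {m w : ℕ} {x : ℤ} : x ∈ canon m w ↔ (0 < x ∧ x ≤ m) ∨ (x < 0 ∧ -x ≤ w) := by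
  unfold canon
  simp only [mem_union, mem_image, mem_range]
  constructor
  · rintro (⟨i, hi, rfl⟩ | ⟨i, hi, rfl⟩) <;> omega
  · rintro (h | h)
    · exact Or.inl ⟨(x - 1).toNat, by omega, by omega⟩
    · exact Or.inr ⟨(-x - 1).toNat, by omega, by omega⟩

lemma pc_canon (m w : ℕ) : pc (canon m w) = m := by
  have : (canon m w).filter (fun x => 0 < x) = (range m).image (fun i : ℕ => (i : ℤ) + 1) := by
    ext x
    simp only [mem_filter, mem_canon, mem_image, mem_range]
    constructor
    · rintro ⟨h | h, h'⟩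
      · exact ⟨(x - 1).toNat, by omega, by omega⟩
      · omega
    · rintro ⟨i, hi, rfl⟩
      omega
  unfold pc
  rw [this, card_image_of_injective _ (fun a b h => by simpa using h), card_range]

lemma nc_canon (m w : ℕ) : nc (canon m w) = w := by
  have : (canon m w).filter (fun x => x < 0) =
      (range w).image (fun i : ℕ => -((i : ℤ) + 1)) := by
    ext x
    simp only [mem_filter, mem_canon, mem_image, mem_range]
    constructor
    · rintro ⟨h | h, h'⟩
      · omega
      · exact ⟨(-x - 1).toNat, by omega, by omega⟩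
    · rintro ⟨i, hi, rfl⟩
      omega
  unfold nc
  rw [this, card_image_of_injective _ (fun a b h => by simpa using h), card_range]

lemma exists_pos (V : Finset ℤ) : (∀ x ∈ V, 0 < x) →
    ∃ g : ℕ → ℤ, StrictMono g ∧ (∀ k, 0 < g k) ∧ (range V.card).image g = V := by
  induction V using Finset.induction_on_max with
  | empty =>
    intro _
    exact ⟨fun k => (k : ℤ) + 1, fun a b h => by simpa using h, fun k => by positivity, by simp⟩
  | insert z V hz ih =>
    intro h
    obtain ⟨g, hg, hpos, himg⟩ := ih (fun x hx => h x (mem_insert_of_mem hx))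
    have hzV : z ∉ V := fun h' => lt_irrefl z (hz z h')
    have hz0 : 0 < z := h z (mem_insert_self z V)
    refine ⟨fun k => if k < V.card then g k else z + ((k - V.card : ℕ) : ℤ), ?_, ?_, ?_⟩
    · refine strictMono_nat_of_lt_succ fun k => ?_
      by_cases h1 : k + 1 < V.card
      · have h2 : k < V.card := by omega
        simp only [if_pos h1, if_pos h2]
        exact hg (Nat.lt_succ_self k)
      · by_cases h2 : k < V.card
        · have h3 : k + 1 - V.card = 0 := by omega
          simp only [if_pos h2, if_neg h1, h3]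
          have : g k ∈ V := by
            rw [← himg]
            exact mem_image_of_mem g (mem_range.mpr h2)
          simpa using hz _ this
        · have h3 : k + 1 - V.card = (k - V.card) + 1 := by omega
          simp only [if_neg h2, if_neg h1, h3]
          push_cast
          omega
    · intro k
      dsimp only
      split_ifs
      · exact hpos k
      · positivity
    · rw [card_insert_of_notMem hzV, range_add_one, image_insert]
      have h1 : (if V.card < V.card then g V.card else z + ((V.card - V.card : ℕ) : ℤ)) = z := by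
        simp
      rw [h1]
      congr 1
      conv_rhs => rw [← himg]
      refine image_congr fun k hk => ?_
      have : k < V.card := by simpa using hk
      simp [this]

lemma exists_map (V : Finset ℤ) (h0 : (0 : ℤ) ∉ V) :
    ∃ f : ℤ → ℤ, StrictMono f ∧ f 0 = 0 ∧ (canon (pc V) (nc V)).image f = V := by
  obtain ⟨g, hg, gpos, gimg⟩ := exists_pos (V.filter fun x => 0 < x) (by
    intro x hx
    exact (mem_filter.mp hx).2)
  obtain ⟨k, hk, kpos, kimg⟩ := exists_pos ((V.filter fun x => x < 0).image (fun x => -x)) (by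
    intro x hx
    obtain ⟨y, hy, rfl⟩ := mem_image.mp hx
    have := (mem_filter.mp hy).2
    omega)
  rw [card_image_of_injective _ neg_injective] at kimg
  refine ⟨fun x => if 0 < x then g (x - 1).toNat else if x = 0 then 0 else -k (-x - 1).toNat,
    ?_, by simp, ?_⟩
  · intro x y hxy
    dsimp only
    have e1 := gpos (y - 1).toNat
    have e2 := kpos (-x - 1).toNat
    by_cases h1 : 0 < x
    · have h2 : 0 < y := by omega
      rw [if_pos h1, if_pos h2]
      exact hg (by omega)
    · rw [if_neg h1]
      by_cases h2 : x = 0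
      · have h3 : 0 < y := by omega
        rw [if_pos h2, if_pos h3]
        exact e1
      · rw [if_neg h2]
        by_cases h3 : 0 < y
        · rw [if_pos h3]; omega
        · rw [if_neg h3]
          by_cases h4 : y = 0
          · rw [if_pos h4]; omega
          · rw [if_neg h4]
            have := hk (show (-y - 1).toNat < (-x - 1).toNat by omega)
            omega
  · ext x
    simp only [mem_image, mem_canon]
    have c1 : ∀ x : ℤ, 0 < x → (x ∈ V ↔ ∃ i, i < pc V ∧ g i = x) := by
      intro x hx
      have : x ∈ V ↔ x ∈ V.filter fun x => 0 < x := by simp [hx]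
      rw [this, ← gimg]
      simp only [mem_image, mem_range]
      rfl
    have c2 : ∀ x : ℤ, x < 0 → (x ∈ V ↔ ∃ i, i < nc V ∧ -k i = x) := by
      intro x hx
      have : x ∈ V ↔ -x ∈ (V.filter fun x => x < 0).image (fun x => -x) := by
        simp only [mem_image, mem_filter, neg_inj]
        constructor
        · intro h; exact ⟨x, ⟨h, hx⟩, rfl⟩
        · rintro ⟨y, ⟨h, -⟩, rfl⟩; exact h
      rw [this, ← kimg]
      simp only [mem_image, mem_range]
      constructor
      · rintro ⟨i, hi, h⟩; exact ⟨i, hi, by omega⟩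
      · rintro ⟨i, hi, h⟩; exact ⟨i, hi, by omega⟩
    constructor
    · rintro ⟨y, hy | hy, rfl⟩
      · rw [if_pos hy.1, c1 _ (gpos _)]
        exact ⟨_, by omega, rfl⟩
      · rw [if_neg (by omega), if_neg (by omega), c2 _ (by
          have := kpos (-y - 1).toNat
          omega)]
        exact ⟨_, by omega, rfl⟩
    · intro hx
      rcases lt_trichotomy x 0 with h | h | h
      · obtain ⟨i, hi, h1⟩ := (c2 x h).mp hx
        refine ⟨-((i : ℤ) + 1), Or.inr (by omega), ?_⟩
        rw [if_neg (by omega), if_neg (by omega), ← h1]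
        congr 2
        omega
      · exact absurd (h ▸ hx) h0
      · obtain ⟨i, hi, h1⟩ := (c1 x h).mp hx
        refine ⟨(i : ℤ) + 1, Or.inl (by omega), ?_⟩
        rw [if_pos (by omega), ← h1]
        congr 1
        omega

/-- The operator attached to a condition. -/
noncomputable def op (G : Finset ℤ → List ℤ → Prop) : Op where
  toFun φ := fun m w => SG G φ (canon m w)
  map_add' φ ψ := by
    funext m w
    simp only [SG, Pi.add_apply]
    rw [← Finset.sum_add_distrib]
    refine Finset.sum_congr rfl fun τ _ => ?_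
    split_ifs <;> simp
  map_smul' c φ := by
    funext m w
    simp only [SG, Pi.smul_apply, smul_eq_mul, RingHom.id_apply]
    rw [Finset.mul_sum]
    refine Finset.sum_congr rfl fun τ _ => ?_
    split_ifs <;> simp

lemma op_def (G : Finset ℤ → List ℤ → Prop) (φ : Sq) (m w : ℕ) :
    op G φ m w = SG G φ (canon m w) := rfl

lemma op_apply {G : Finset ℤ → List ℤ → Prop} (hG : Inv G) (φ : Sq) {V : Finset ℤ}
    (h0 : (0 : ℤ) ∉ V) : SG G φ V = op G φ (pc V) (nc V) := by
  obtain ⟨f, hf, hf0, himg⟩ := exists_map V h0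
  conv_lhs => rw [← himg]
  rw [SG_image hG φ hf hf0]
  rfl

lemma op_eq {G : Finset ℤ → List ℤ → Prop} (hG : Inv G) (φ : Sq) {V : Finset ℤ}
    (h0 : (0 : ℤ) ∉ V) {m w : ℕ} (hm : pc V = m) (hw : nc V = w) :
    op G φ m w = SG G φ V := by
  rw [op_apply hG φ h0, hm, hw]

lemma its_sub (V : Finset ℤ) (τ : List ℤ) : its V τ ⊆ V := filter_subset _ _

lemma pc_mono {V U : Finset ℤ} (h : V ⊆ U) : pc V ≤ pc U :=
  card_le_card (filter_subset_filter _ h)

lemma nc_mono {V U : Finset ℤ} (h : V ⊆ U) : nc V ≤ nc U :=
  card_le_card (filter_subset_filter _ h)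

lemma op_loc (G : Finset ℤ → List ℤ → Prop) : Loc (op G) := by
  intro φ ψ m w h
  rw [op_def, op_def]
  unfold SG
  refine Finset.sum_congr rfl fun τ _ => ?_
  have h1 := pc_mono (its_sub (canon m w) τ)
  have h2 := nc_mono (its_sub (canon m w) τ)
  rw [pc_canon] at h1
  rw [nc_canon] at h2
  rw [h _ _ h1 h2]

end Pool.Agent.H384R3.Vinc
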