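import Pool.Agent.H384R3.Vinc.Ops

set_option autoImplicit false

/-!
# The relations between the operators
-/

open Finset

namespace Pool.Agent.H384R3.Vinc

/-- `c` is positive and exceeds all elements of `J`. -/
def Dom (J : Finset ℤ) (c : ℤ) : Prop := 0 < c ∧ ∀ x ∈ J, x < c

/-- Condition attached to a choice of critical letters. -/
def Gc (cr : List ℤ → List ℤ) (J : Finset ℤ) (τ : List ℤ) : Prop :=
  Av τ ∧ ∀ c ∈ cr τ, Dom J c

/-- Condition for `e`. -/
def Ge (J : Finset ℤ) (τ : List ℤ) : Prop := Gc tops J τ ∧ ∀ c ∈ τ.head?, c < 0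

/-- Condition for `v`. -/
def Gv (_ : Finset ℤ) (τ : List ℤ) : Prop := τ.Pairwise (· > ·) ∧ ∀ x ∈ τ, x < 0

/-- Properties of critical letters. -/
structure CR (cr : List ℤ → List ℤ) : Prop where
  map : ∀ (f : ℤ → ℤ) (l : List ℤ), (∀ x ∈ l, ∀ y ∈ l, (f x < f y ↔ x < y)) →
    cr (l.map f) = (cr l).map f
  sub : ∀ (l : List ℤ), ∀ x ∈ cr l, x ∈ l

lemma CR_tops : CR tops := ⟨tops_map, tops_sub⟩
lemma CR_rtops : CR rtops := ⟨rtops_map, rtops_sub⟩

lemma Dom_image {f : ℤ → ℤ} (hf : StrictMono f) (h0 : f 0 = 0) (J : Finset ℤ) (c : ℤ) :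
    Dom (J.image f) (f c) ↔ Dom J c := by
  unfold Dom
  have h1 : 0 < f c ↔ 0 < c := by
    have := hf.lt_iff_lt (a := 0) (b := c)
    rw [h0] at this
    exact this
  rw [h1]
  refine and_congr_right fun _ => ?_
  simp only [mem_image, forall_exists_index, and_imp, forall_apply_eq_imp_iff₂, hf.lt_iff_lt]

lemma inv_Gc {cr : List ℤ → List ℤ} (hcr : CR cr) : Inv (Gc cr) := by
  intro f hf h0 J τ
  unfold Gc
  rw [Av_map f τ (fun x _ y _ => hf.lt_iff_lt), hcr.map f τ (fun x _ y _ => hf.lt_iff_lt)]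
  refine and_congr_right fun _ => ?_
  simp only [List.mem_map, forall_exists_index, and_imp, forall_apply_eq_imp_iff₂,
    Dom_image hf h0]

lemma inv_Ge : Inv Ge := by
  intro f hf h0 J τ
  unfold Ge
  rw [inv_Gc CR_tops f hf h0]
  refine and_congr_right fun _ => ?_
  have h1 : ∀ c, f c < 0 ↔ c < 0 := by
    intro c
    have := hf.lt_iff_lt (a := c) (b := 0)
    rw [h0] at this
    exact this
  cases τ with
  | nil => simp
  | cons a l => simp [h1]

lemma inv_Gv : Inv Gv := by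
  intro f hf h0 J τ
  unfold Gv
  have h1 : ∀ c, f c < 0 ↔ c < 0 := by
    intro c
    have := hf.lt_iff_lt (a := c) (b := 0)
    rw [h0] at this
    exact this
  rw [List.pairwise_map]
  simp only [gt_iff_lt, hf.lt_iff_lt, List.mem_map, forall_exists_index, and_imp,
    forall_apply_eq_imp_iff₂, h1]

lemma pc_insert_pos {J : Finset ℤ} {z : ℤ} (hz : z ∉ J) (h : 0 < z) :
    pc (insert z J) = pc J + 1 := by
  unfold pc
  rw [filter_insert, if_pos h, card_insert_of_notMem (fun h' => hz (mem_filter.mp h').1)]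

lemma nc_insert_pos {J : Finset ℤ} {z : ℤ} (h : 0 < z) :
    nc (insert z J) = nc J := by
  unfold nc
  rw [filter_insert, if_neg (by omega)]

lemma nc_insert_neg {J : Finset ℤ} {z : ℤ} (hz : z ∉ J) (h : z < 0) :
    nc (insert z J) = nc J + 1 := by
  unfold nc
  rw [filter_insert, if_pos h, card_insert_of_notMem (fun h' => hz (mem_filter.mp h').1)]

lemma pc_insert_neg {J : Finset ℤ} {z : ℤ} (h : z < 0) :
    pc (insert z J) = pc J := by
  unfold pc
  rw [filter_insert, if_neg (by omega)]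

open Classical in
/-- Removing the smallest element. -/
lemma SG_min {G : Finset ℤ → List ℤ → Prop} (φ : Sq) {U : Finset ℤ} {z : ℤ}
    (h0 : (0 : ℤ) ∉ U) (hz : z ∉ U)
    (P1 : ∀ τ ∈ W U, (G (insert z (its U τ)) τ ↔ G (its U τ) τ))
    (P2 : ∀ α ∈ W U, ∀ β ∈ W (its U α), (G (its (its U α) β) (α ++ z :: β) ↔
      G (its U α) α ∧ Gc rtops (its (its U α) β) β)) :
    SG G φ (insert z U) =
      (∑ τ ∈ W U, if G (its U τ) τ then
        φ (pc (insert z (its U τ))) (nc (insert z (its U τ))) else 0) +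
      SG G (op (Gc rtops) φ) U := by
  have hS : SG G φ (insert z U) = ∑ τ ∈ W (insert z U), if G (its (insert z U) τ) τ then
    φ (pc (its (insert z U) τ)) (nc (its (insert z U) τ)) else 0 := rfl
  rw [hS, sum_W_insert hz]
  congr 1
  · refine Finset.sum_congr rfl fun τ hτ => ?_
    rw [its_insert hz hτ]
    have := P1 τ hτ
    by_cases h : G (its U τ) τ
    · rw [if_pos h, if_pos (this.mpr h)]
    · rw [if_neg h, if_neg (fun h' => h (this.mp h'))]
  · unfold SG
    refine Finset.sum_congr rfl fun α hα => ?_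
    have h0' : (0 : ℤ) ∉ its U α := fun h => h0 (its_sub _ _ h)
    by_cases h : G (its U α) α
    · rw [if_pos h, ← op_apply (inv_Gc CR_rtops) φ h0']
      unfold SG
      refine Finset.sum_congr rfl fun β hβ => ?_
      rw [its_split hz]
      have := P2 α hα β hβ
      by_cases h2 : Gc rtops (its (its U α) β) β
      · rw [if_pos h2, if_pos (this.mpr ⟨h, h2⟩)]
      · rw [if_neg h2, if_neg (fun h' => h2 (this.mp h').2)]
    · rw [if_neg h]
      refine Finset.sum_eq_zero fun β hβ => ?_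
      rw [its_split hz]
      have := P2 α hα β hβ
      rw [if_neg (fun h' => h (this.mp h').1)]

lemma SG_min_neg {G : Finset ℤ → List ℤ → Prop} (φ : Sq) {U : Finset ℤ} {z : ℤ}
    (h0 : (0 : ℤ) ∉ U) (hz : z ∉ U) (hneg : z < 0)
    (P1 : ∀ τ ∈ W U, (G (insert z (its U τ)) τ ↔ G (its U τ) τ))
    (P2 : ∀ α ∈ W U, ∀ β ∈ W (its U α), (G (its (its U α) β) (α ++ z :: β) ↔
      G (its U α) α ∧ Gc rtops (its (its U α) β) β)) :
    SG G φ (insert z U) = SG G (dop φ) U + SG G (op (Gc rtops) φ) U := by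
  rw [SG_min φ h0 hz P1 P2]
  congr 1
  unfold SG
  refine Finset.sum_congr rfl fun τ _ => ?_
  have hz' : z ∉ its U τ := fun h => hz (its_sub _ _ h)
  rw [pc_insert_neg hneg, nc_insert_neg hz' hneg]
  rfl

lemma SG_min_pos {G : Finset ℤ → List ℤ → Prop} (φ : Sq) {U : Finset ℤ} {z : ℤ}
    (h0 : (0 : ℤ) ∉ U) (hz : z ∉ U) (hpos : 0 < z)
    (P1 : ∀ τ ∈ W U, (G (insert z (its U τ)) τ ↔ G (its U τ) τ))
    (P2 : ∀ α ∈ W U, ∀ β ∈ W (its U α), (G (its (its U α) β) (α ++ z :: β) ↔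
      G (its U α) α ∧ Gc rtops (its (its U α) β) β)) :
    SG G φ (insert z U) = SG G (Sop φ) U + SG G (op (Gc rtops) φ) U := by
  rw [SG_min φ h0 hz P1 P2]
  congr 1
  unfold SG
  refine Finset.sum_congr rfl fun τ _ => ?_
  have hz' : z ∉ its U τ := fun h => hz (its_sub _ _ h)
  rw [pc_insert_pos hz' hpos, nc_insert_pos hpos]
  rfl

lemma P1_Gc {cr : List ℤ → List ℤ} (hcr : CR cr) {U : Finset ℤ} {z : ℤ}
    (hz : ∀ x ∈ U, 0 < x → z < x) (τ : List ℤ) (hτ : τ ∈ W U) :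
    Gc cr (insert z (its U τ)) τ ↔ Gc cr (its U τ) τ := by
  unfold Gc
  refine and_congr_right fun _ => forall₂_congr fun c hc => ?_
  have h1 : c ∈ U := (mem_W.mp hτ).2 c (hcr.sub _ c hc)
  unfold Dom
  refine and_congr_right fun hc0 => ?_
  rw [forall_mem_insert]
  exact and_iff_right (hz c h1 hc0)

lemma split_nodup {U : Finset ℤ} {z : ℤ} (hz : z ∉ U) {α β : List ℤ} (hα : α ∈ W U)
    (hβ : β ∈ W (its U α)) : (α ++ z :: β).Nodup :=
  (mem_W.mp (mem_split hz hα hβ)).1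

lemma P2_tops {U : Finset ℤ} {z : ℤ} (hz : ∀ x ∈ U, z < x) (α : List ℤ) (hα : α ∈ W U)
    (β : List ℤ) (hβ : β ∈ W (its U α)) :
    Gc tops (its (its U α) β) (α ++ z :: β) ↔
      Gc tops (its U α) α ∧ Gc rtops (its (its U α) β) β := by
  have hzU : z ∉ U := fun h => lt_irrefl z (hz z h)
  have hα' : ∀ x ∈ α, z < x := fun x hx => hz x ((mem_W.mp hα).2 x hx)
  have hβ' : ∀ x ∈ β, z < x := fun x hx => hz x (its_sub _ _ ((mem_W.mp hβ).2 x hx))
  unfold Gc
  rw [Av_split (split_nodup hzU hα hβ) hα' hβ', tops_split hα' hβ']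
  have key : ∀ c, Dom (its U α) c ↔ Dom (its (its U α) β) c ∧ ∀ x ∈ β, x < c := by
    intro c
    unfold Dom
    constructor
    · rintro ⟨h1, h2⟩
      exact ⟨⟨h1, fun x hx => h2 x (its_sub _ _ hx)⟩, fun x hx => h2 x ((mem_W.mp hβ).2 x hx)⟩
    · rintro ⟨⟨h1, h2⟩, h3⟩
      refine ⟨h1, fun x hx => ?_⟩
      by_cases hxβ : x ∈ β
      · exact h3 x hxβ
      · exact h2 x (mem_its.mpr ⟨hx, hxβ⟩)
  simp only [List.mem_append]
  constructor
  · rintro ⟨⟨h1, h2, h3⟩, h4⟩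
    exact ⟨⟨h1, fun c hc => (key c).mpr ⟨h4 c (Or.inl hc), h3 c hc⟩⟩, h2,
      fun c hc => h4 c (Or.inr hc)⟩
  · rintro ⟨⟨h1, h2⟩, h3, h4⟩
    refine ⟨⟨h1, h3, fun c hc => ((key c).mp (h2 c hc)).2⟩, ?_⟩
    rintro c (hc | hc)
    · exact ((key c).mp (h2 c hc)).1
    · exact h4 c hc

lemma P2_e {U : Finset ℤ} {z : ℤ} (hz : ∀ x ∈ U, z < x) (hneg : z < 0) (α : List ℤ)
    (hα : α ∈ W U) (β : List ℤ) (hβ : β ∈ W (its U α)) :
    Ge (its (its U α) β) (α ++ z :: β) ↔
      Ge (its U α) α ∧ Gc rtops (its (its U α) β) β := by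
  unfold Ge
  rw [P2_tops hz α hα β hβ]
  cases α with
  | nil => simp [hneg]
  | cons a l => simp; tauto

lemma P1_e {U : Finset ℤ} {z : ℤ} (hz : ∀ x ∈ U, 0 < x → z < x) (τ : List ℤ) (hτ : τ ∈ W U) :
    Ge (insert z (its U τ)) τ ↔ Ge (its U τ) τ := by
  unfold Ge
  rw [P1_Gc CR_tops hz τ hτ]

lemma canon_succ_right (m w : ℕ) :
    canon m (w + 1) = insert (-((w : ℤ) + 1)) (canon m w) := by
  ext x
  simp only [mem_canon, mem_insert]
  push_cast
  omega

lemma canon_succ_left (m w : ℕ) :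
    canon (m + 1) w = insert ((m : ℤ) + 1) (canon m w) := by
  ext x
  simp only [mem_canon, mem_insert]
  push_cast
  omega

lemma zero_canon (m w : ℕ) : (0 : ℤ) ∉ canon m w := by
  rw [mem_canon]; omega

lemma rel1 : dop * op (Gc tops) = op (Gc tops) * dop + op (Gc tops) * op (Gc rtops) := by
  refine LinearMap.ext fun φ => ?_
  funext m w
  change op (Gc tops) φ m (w + 1) =
    op (Gc tops) (dop φ) m w + op (Gc tops) (op (Gc rtops) φ) m w
  rw [op_def, op_def, op_def, canon_succ_right]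
  have hz : ∀ x ∈ canon m w, -((w : ℤ) + 1) < x := by
    intro x hx
    rw [mem_canon] at hx
    omega
  exact SG_min_neg φ (zero_canon m w) (fun h => lt_irrefl _ (hz _ h)) (by omega)
    (P1_Gc CR_tops (fun x hx _ => hz x hx)) (P2_tops hz)

lemma rel3 : dop * op Ge = op Ge * dop + op Ge * op (Gc rtops) := by
  refine LinearMap.ext fun φ => ?_
  funext m w
  change op Ge φ m (w + 1) =
    op Ge (dop φ) m w + op Ge (op (Gc rtops) φ) m w
  rw [op_def, op_def, op_def, canon_succ_right]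
  have hz : ∀ x ∈ canon m w, -((w : ℤ) + 1) < x := by
    intro x hx
    rw [mem_canon] at hx
    omega
  exact SG_min_neg φ (zero_canon m w) (fun h => lt_irrefl _ (hz _ h)) (by omega)
    (P1_e (fun x hx _ => hz x hx)) (P2_e hz (by omega))

lemma op_single {G : Finset ℤ → List ℤ → Prop} (φ : Sq) (m w : ℕ)
    (h : ∀ τ ∈ W (canon m w), (G (its (canon m w) τ) τ ↔ τ = [])) : op G φ m w = φ m w := by
  classical
  rw [op_def]
  unfold SG
  have hnil : [] ∈ W (canon m w) := by rw [mem_W]; simp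
  rw [Finset.sum_eq_single []]
  · rw [if_pos ((h [] hnil).mpr rfl), its_nil, pc_canon, nc_canon]
  · intro τ hτ hne
    rw [if_neg (fun h' => hne ((h τ hτ).mp h'))]
  · intro h'
    exact absurd hnil h'

lemma rel3' (φ : Sq) (m : ℕ) : op Ge φ m 0 = φ m 0 := by
  refine op_single φ m 0 fun τ hτ => ?_
  cases τ with
  | nil => simp [Ge, Gc, Av, tops]
  | cons a l =>
    have : a ∈ canon m 0 := (mem_W.mp hτ).2 a (by simp)
    rw [mem_canon] at this
    have h1 : ¬ a < 0 := by omega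
    simp [Ge, h1]

lemma relv0 (φ : Sq) (m : ℕ) : op Gv φ m 0 = φ m 0 := by
  refine op_single φ m 0 fun τ hτ => ?_
  cases τ with
  | nil => simp [Gv]
  | cons a l =>
    have : a ∈ canon m 0 := (mem_W.mp hτ).2 a (by simp)
    rw [mem_canon] at this
    have h1 : ¬ a < 0 := by omega
    simp [Gv, h1]

lemma rel6b (φ : Sq) (w : ℕ) : op (Gc rtops) φ 0 w = φ 0 w := by
  refine op_single φ 0 w fun τ hτ => ?_
  cases τ with
  | nil => simp [Gc, Av, rtops]
  | cons a l =>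
    have : a ∈ canon 0 w := (mem_W.mp hτ).2 a (by simp)
    rw [mem_canon] at this
    have h1 : ¬ 0 < a := by omega
    simp [Gc, rtops, Dom, h1]

lemma op_congr {G G' : Finset ℤ → List ℤ → Prop} (φ : Sq) (m w : ℕ)
    (h : ∀ τ ∈ W (canon m w), (G (its (canon m w) τ) τ ↔ G' (its (canon m w) τ) τ)) :
    op G φ m w = op G' φ m w := by
  rw [op_def, op_def]
  unfold SG
  refine Finset.sum_congr rfl fun τ hτ => ?_
  by_cases h1 : G (its (canon m w) τ) τ
  · rw [if_pos h1, if_pos ((h τ hτ).mp h1)]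
  · rw [if_neg h1, if_neg (fun h' => h1 ((h τ hτ).mpr h'))]

lemma rel6a (φ : Sq) (w : ℕ) : op (Gc tops) φ 0 w = op Gv φ 0 w := by
  refine op_congr φ 0 w fun τ hτ => ?_
  have hneg : ∀ x ∈ τ, x < 0 := by
    intro x hx
    have := (mem_W.mp hτ).2 x hx
    rw [mem_canon] at this
    omega
  unfold Gc Gv
  rw [← tops_eq_nil (mem_W.mp hτ).1]
  constructor
  · rintro ⟨_, h⟩
    refine ⟨?_, hneg⟩
    by_contra hne
    obtain ⟨c, hc⟩ := List.exists_mem_of_ne_nil _ hne
    have h1 := (h c hc).1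
    have h2 := hneg c (tops_sub _ c hc)
    omega
  · rintro ⟨h, _⟩
    refine ⟨Av_of_tops_nil h, ?_⟩
    rw [h]
    simp

lemma rel6e (φ : Sq) (w : ℕ) : op Ge φ 0 w = op Gv φ 0 w := by
  rw [← rel6a]
  refine op_congr φ 0 w fun τ hτ => ?_
  unfold Ge
  refine and_iff_left fun c hc => ?_
  have := (mem_W.mp hτ).2 c (List.mem_of_mem_head? hc)
  rw [mem_canon] at this
  omega

end Pool.Agent.H384R3.Vinc
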