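import Pool.Agent.H384R3.Vinc.Rel
import Pool.Agent.H384R3.Vinc.Alg2

set_option autoImplicit false

/-!
# The remaining relations between the operators
-/

open Finset

namespace Pool.Agent.H384R3.Vinc

lemma rel2 (φ : Sq) (hφ : ∀ i j, φ (i + 1) j = 0) :
    op (Gc tops) φ = op (Gc rtops) φ + op Ge φ - φ := by
  classical
  rw [eq_sub_iff_add_eq]
  funext m w
  have hnil : [] ∈ W (canon m w) := by rw [mem_W]; simp
  have hφV : φ m w = ∑ τ ∈ W (canon m w), if τ = [] then
      φ (pc (its (canon m w) τ)) (nc (its (canon m w) τ)) else 0 := by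
    rw [Finset.sum_ite_eq' , if_pos hnil, its_nil, pc_canon, nc_canon]
  change op (Gc tops) φ m w + φ m w = op (Gc rtops) φ m w + op Ge φ m w
  rw [op_def, op_def, op_def, hφV]
  unfold SG
  rw [← Finset.sum_add_distrib, ← Finset.sum_add_distrib]
  refine Finset.sum_congr rfl fun τ hτ => ?_
  set J := its (canon m w) τ with hJ
  rcases Nat.eq_zero_or_pos (pc J) with hp | hp
  · have hJneg : ∀ x ∈ J, x ≤ 0 := by
      intro x hx
      by_contra hx0
      have h1 : x ∈ J.filter fun x => 0 < x := mem_filter.mpr ⟨hx, by omega⟩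
      have h2 := card_pos.mpr ⟨x, h1⟩
      unfold pc at hp
      omega
    have hDom : ∀ c, Dom J c ↔ 0 < c := by
      intro c
      unfold Dom
      refine and_iff_left_of_imp fun hc x hx => ?_
      have := hJneg x hx
      omega
    cases τ with
    | nil => simp [Gc, Ge, Av, tops, rtops]
    | cons a l =>
      have ha : a ∈ canon m w := (mem_W.mp hτ).2 a (by simp)
      rw [mem_canon] at ha
      have h1 : Gc rtops J (a :: l) ↔ Gc tops J (a :: l) ∧ 0 < a := by
        unfold Gc
        simp only [rtops, List.mem_cons, forall_eq_or_imp, hDom]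
        tauto
      have h2 : Ge J (a :: l) ↔ Gc tops J (a :: l) ∧ a < 0 := by
        unfold Ge
        simp
      by_cases h3 : Gc tops J (a :: l)
      · rcases ha with ha | ha
        · have h4 : ¬ a < 0 := by omega
          simp [h1, h2, h3, ha.1, h4]
        · have h4 : ¬ 0 < a := by omega
          simp [h1, h2, h3, ha.1, h4]
      · simp [h1, h2, h3]
  · obtain ⟨k, hk⟩ := Nat.exists_eq_succ_of_ne_zero (by omega : pc J ≠ 0)
    rw [hk]
    simp [hφ]

/-- The standard set avoiding `1` and `-1`. -/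
def canon2 (m w : ℕ) : Finset ℤ :=
  (canon m w).image (fun x : ℤ => if 0 < x then x + 1 else if x = 0 then 0 else x - 1)

lemma shift_strict :
    StrictMono (fun x : ℤ => if 0 < x then x + 1 else if x = 0 then 0 else x - 1) := by
  intro x y hxy
  dsimp only
  split_ifs <;> omega

lemma pc_canon2 (m w : ℕ) : pc (canon2 m w) = m := by
  unfold canon2
  rw [pc_image shift_strict (by simp), pc_canon]

lemma nc_canon2 (m w : ℕ) : nc (canon2 m w) = w := by
  unfold canon2
  rw [nc_image shift_strict (by simp), nc_canon]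

lemma mem_canon2 {m w : ℕ} {x : ℤ} (hx : x ∈ canon2 m w) : 2 ≤ x ∨ x ≤ -2 := by
  unfold canon2 at hx
  obtain ⟨y, hy, rfl⟩ := mem_image.mp hx
  rw [mem_canon] at hy
  split_ifs <;> omega

lemma mem_canon2_zero {m : ℕ} {x : ℤ} (hx : x ∈ canon2 m 0) : 2 ≤ x := by
  unfold canon2 at hx
  obtain ⟨y, hy, rfl⟩ := mem_image.mp hx
  rw [mem_canon] at hy
  split_ifs <;> omega

lemma rel4 (φ : Sq) (m : ℕ) :
    op (Gc tops) φ (m + 1) 0 = op (Gc tops) (Sop φ) m 0 +
      op (Gc tops) (op (Gc rtops) φ) m 0 := by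
  have h0 : (0 : ℤ) ∉ canon2 m 0 := fun h => by
    have := mem_canon2 h
    omega
  have h1 : (1 : ℤ) ∉ canon2 m 0 := fun h => by
    have := mem_canon2 h
    omega
  have h0' : (0 : ℤ) ∉ insert 1 (canon2 m 0) := by
    rw [mem_insert]
    push Not
    exact ⟨by omega, h0⟩
  have hz : ∀ x ∈ canon2 m 0, 1 < x := by
    intro x hx
    have := mem_canon2_zero hx
    omega
  rw [op_eq (inv_Gc CR_tops) φ h0' (by rw [pc_insert_pos h1 (by omega), pc_canon2])
      (by rw [nc_insert_pos (by omega), nc_canon2]),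
    op_eq (inv_Gc CR_tops) (Sop φ) h0 (pc_canon2 m 0) (nc_canon2 m 0),
    op_eq (inv_Gc CR_tops) (op (Gc rtops) φ) h0 (pc_canon2 m 0) (nc_canon2 m 0)]
  exact SG_min_pos φ h0 h1 (by omega)
    (P1_Gc CR_tops (fun x hx _ => hz x hx)) (P2_tops hz)

lemma swap_Gc {cr : List ℤ → List ℤ} (hcr : CR cr) {m w : ℕ} {J : Finset ℤ}
    (hJ : J ⊆ canon2 m w) (hp : pc J ≠ 0) {α β : List ℤ}
    (hα : ∀ x ∈ α, x ∈ canon2 m w) (hβ : ∀ x ∈ β, x ∈ canon2 m w) :
    Gc cr J (α ++ 1 :: β) ↔ Gc cr J (α ++ (-1) :: β) := by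
  obtain ⟨j, hj⟩ : ∃ j ∈ J, 0 < j := by
    have : (J.filter fun x => 0 < x).Nonempty := card_pos.mp (by unfold pc at hp; omega)
    obtain ⟨j, hj⟩ := this
    exact ⟨j, (mem_filter.mp hj).1, (mem_filter.mp hj).2⟩
  set f : ℤ → ℤ := fun x => if x = 1 then -1 else x with hf
  have hfα : α.map f = α := by
    conv_rhs => rw [← List.map_id α]
    refine List.map_congr_left fun x hx => ?_
    have := mem_canon2 (hα x hx)
    simp only [hf, id]
    rw [if_neg (by omega)]
  have hfβ : β.map f = β := by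
    conv_rhs => rw [← List.map_id β]
    refine List.map_congr_left fun x hx => ?_
    have := mem_canon2 (hβ x hx)
    simp only [hf, id]
    rw [if_neg (by omega)]
  have hmap : (α ++ 1 :: β).map f = α ++ (-1) :: β := by
    rw [List.map_append, List.map_cons, hfα, hfβ]
    simp [hf]
  have hmem : ∀ x ∈ α ++ 1 :: β, x = 1 ∨ 2 ≤ x ∨ x ≤ -2 := by
    intro x hx
    rcases List.mem_append.mp hx with h | h
    · exact Or.inr (mem_canon2 (hα x h))
    · rcases List.mem_cons.mp h with h | h
      · exact Or.inl h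
      · exact Or.inr (mem_canon2 (hβ x h))
  have hord : ∀ x ∈ α ++ 1 :: β, ∀ y ∈ α ++ 1 :: β, (f x < f y ↔ x < y) := by
    intro x hx y hy
    have h1 := hmem x hx
    have h2 := hmem y hy
    simp only [hf]
    split_ifs <;> omega
  unfold Gc
  rw [← hmap, Av_map f _ hord, hcr.map f _ hord]
  refine and_congr_right fun _ => ?_
  rw [List.forall_mem_map]
  refine forall₂_congr fun c _ => ?_
  by_cases hc1 : c = 1
  · subst hc1
    have h1 : ¬ Dom J 1 := fun h => by
      have := h.2 j hj.1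
      have := mem_canon2 (hJ hj.1)
      omega
    have h2 : ¬ Dom J (f 1) := fun h => by
      have := h.1
      simp [hf] at this
    simp [h1, h2]
  · simp only [hf]
    rw [if_neg hc1]

lemma P1_Gc_neg {cr : List ℤ → List ℤ} {U : Finset ℤ} {z : ℤ}
    (hz : z < 0) (τ : List ℤ) :
    Gc cr (insert z (its U τ)) τ ↔ Gc cr (its U τ) τ := by
  unfold Gc
  refine and_congr_right fun _ => forall₂_congr fun c hc => ?_
  unfold Dom
  refine and_congr_right fun hc0 => ?_
  rw [forall_mem_insert]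
  exact and_iff_right (by omega)

lemma rel5 {cr : List ℤ → List ℤ} (hcr : CR cr) (φ : Sq) (hφ : ∀ j, φ 0 j = 0) :
    (Sop - dop) (op (Gc cr) φ) = op (Gc cr) ((Sop - dop) φ) := by
  funext m w
  change op (Gc cr) φ (m + 1) w - op (Gc cr) φ m (w + 1) = op (Gc cr) ((Sop - dop) φ) m w
  have h0 : (0 : ℤ) ∉ canon2 m w := fun h => by
    have := mem_canon2 h
    omega
  have h1 : (1 : ℤ) ∉ canon2 m w := fun h => by
    have := mem_canon2 h
    omega
  have h2 : (-1 : ℤ) ∉ canon2 m w := fun h => by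
    have := mem_canon2 h
    omega
  have h0' : (0 : ℤ) ∉ insert 1 (canon2 m w) := by
    rw [mem_insert]
    push Not
    exact ⟨by omega, h0⟩
  have h0'' : (0 : ℤ) ∉ insert (-1) (canon2 m w) := by
    rw [mem_insert]
    push Not
    exact ⟨by omega, h0⟩
  rw [op_eq (inv_Gc hcr) φ h0' (by rw [pc_insert_pos h1 (by omega), pc_canon2])
      (by rw [nc_insert_pos (by omega), nc_canon2]),
    op_eq (inv_Gc hcr) φ h0'' (by rw [pc_insert_neg (by omega), pc_canon2])
      (by rw [nc_insert_neg h2 (by omega), nc_canon2]),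
    op_eq (inv_Gc hcr) ((Sop - dop) φ) h0 (pc_canon2 m w) (nc_canon2 m w)]
  unfold SG
  rw [sum_W_insert h1, sum_W_insert h2]
  have hsnd : (∑ α ∈ W (canon2 m w), ∑ β ∈ W (its (canon2 m w) α),
      open Classical in
      if Gc cr (its (insert 1 (canon2 m w)) (α ++ 1 :: β)) (α ++ 1 :: β) then
        φ (pc (its (insert 1 (canon2 m w)) (α ++ 1 :: β)))
          (nc (its (insert 1 (canon2 m w)) (α ++ 1 :: β))) else 0) =
      ∑ α ∈ W (canon2 m w), ∑ β ∈ W (its (canon2 m w) α),
      open Classical in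
      if Gc cr (its (insert (-1) (canon2 m w)) (α ++ (-1) :: β)) (α ++ (-1) :: β) then
        φ (pc (its (insert (-1) (canon2 m w)) (α ++ (-1) :: β)))
          (nc (its (insert (-1) (canon2 m w)) (α ++ (-1) :: β))) else 0 := by
    refine Finset.sum_congr rfl fun α hα => Finset.sum_congr rfl fun β hβ => ?_
    rw [its_split h1, its_split h2]
    set J := its (its (canon2 m w) α) β with hJ
    by_cases hp : pc J = 0
    · rw [hp, hφ]
      simp
    · have := swap_Gc hcr (m := m) (w := w) (J := J)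
        ((its_sub _ _).trans (its_sub _ _)) hp (α := α) (β := β) (mem_W.mp hα).2
        (fun x hx => its_sub _ _ ((mem_W.mp hβ).2 x hx))
      by_cases h : Gc cr J (α ++ 1 :: β)
      · rw [if_pos h, if_pos (this.mp h)]
      · rw [if_neg h, if_neg (fun h' => h (this.mpr h'))]
  rw [hsnd, add_sub_add_right_eq_sub, ← Finset.sum_sub_distrib]
  refine Finset.sum_congr rfl fun τ hτ => ?_
  rw [its_insert h1 hτ, its_insert h2 hτ]
  have e1 : Gc cr (insert 1 (its (canon2 m w) τ)) τ ↔ Gc cr (its (canon2 m w) τ) τ :=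
    P1_Gc hcr (fun x hx hx0 => by
      have := mem_canon2 hx
      omega) τ hτ
  have e2 : Gc cr (insert (-1) (its (canon2 m w) τ)) τ ↔ Gc cr (its (canon2 m w) τ) τ :=
    P1_Gc_neg (by omega) τ
  have h1' : (1 : ℤ) ∉ its (canon2 m w) τ := fun h => h1 (its_sub _ _ h)
  have h2' : (-1 : ℤ) ∉ its (canon2 m w) τ := fun h => h2 (its_sub _ _ h)
  rw [pc_insert_pos h1' (by omega), nc_insert_pos (by omega), pc_insert_neg (by omega),
    nc_insert_neg h2' (by omega)]
  by_cases h : Gc cr (its (canon2 m w) τ) τ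
  · rw [if_pos h, if_pos (e1.mpr h), if_pos (e2.mpr h)]
    rfl
  · rw [if_neg h, if_neg (fun h' => h (e1.mp h')), if_neg (fun h' => h (e2.mp h'))]
    simp

lemma pc_its_neg (V : Finset ℤ) {τ : List ℤ} (h : ∀ x ∈ τ, x < 0) : pc (its V τ) = pc V := by
  unfold pc its
  rw [filter_filter]
  congr 1
  refine filter_congr fun x _ => ?_
  constructor
  · exact fun h' => h'.2
  · intro h'
    refine ⟨fun hx => ?_, h'⟩
    have := h x hx
    omega

lemma relvF (φ : Sq) (hφ : ∀ i j, φ (i + 1) j = 0) (i j : ℕ) : op Gv φ (i + 1) j = 0 := by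
  rw [op_def]
  unfold SG
  refine Finset.sum_eq_zero fun τ _ => ?_
  by_cases h : Gv (its (canon (i + 1) j) τ) τ
  · rw [if_pos h, pc_its_neg _ h.2, pc_canon, hφ]
  · rw [if_neg h]

lemma relvX : op Gv * Xop = Xop * op Gv := by
  refine LinearMap.ext fun φ => ?_
  funext m w
  change op Gv (Xop φ) m w = Xop (op Gv φ) m w
  cases m with
  | zero =>
    rw [op_def]
    unfold SG
    refine Finset.sum_eq_zero fun τ _ => ?_
    by_cases h : Gv (its (canon 0 w) τ) τ
    · rw [if_pos h, pc_its_neg _ h.2, pc_canon, Xop_zero]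
    · rw [if_neg h]
  | succ m =>
    rw [Xop_succ, op_def, op_def, canon_succ_left]
    have hz : ((m : ℤ) + 1) ∉ canon m w := by
      rw [mem_canon]
      omega
    unfold SG
    rw [sum_W_insert hz]
    have h2 : (∑ α ∈ W (canon m w), ∑ β ∈ W (its (canon m w) α),
        open Classical in
        if Gv (its (insert ((m : ℤ) + 1) (canon m w)) (α ++ ((m : ℤ) + 1) :: β))
          (α ++ ((m : ℤ) + 1) :: β) then
        Xop φ (pc (its (insert ((m : ℤ) + 1) (canon m w)) (α ++ ((m : ℤ) + 1) :: β)))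
          (nc (its (insert ((m : ℤ) + 1) (canon m w)) (α ++ ((m : ℤ) + 1) :: β))) else 0) = 0 := by
      refine Finset.sum_eq_zero fun α _ => Finset.sum_eq_zero fun β _ => ?_
      refine if_neg fun h => ?_
      have := h.2 ((m : ℤ) + 1) (by simp)
      omega
    rw [h2, add_zero]
    refine Finset.sum_congr rfl fun τ hτ => ?_
    have hz' : ((m : ℤ) + 1) ∉ its (canon m w) τ := fun h => hz (its_sub _ _ h)
    rw [its_insert hz hτ, pc_insert_pos hz' (by omega), nc_insert_pos (by omega), Xop_succ]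
    rfl

lemma reldv : dop * op Gv = op Gv * dop + op Gv := by
  refine LinearMap.ext fun φ => ?_
  funext m w
  change op Gv φ m (w + 1) = op Gv (dop φ) m w + op Gv φ m w
  rw [op_def, op_def, op_def, canon_succ_right]
  have hmin : ∀ x ∈ canon m w, -((w : ℤ) + 1) < x := by
    intro x hx
    rw [mem_canon] at hx
    omega
  have hz : -((w : ℤ) + 1) ∉ canon m w := fun h => lt_irrefl _ (hmin _ h)
  unfold SG
  rw [sum_W_insert hz]
  congr 1
  · refine Finset.sum_congr rfl fun τ hτ => ?_
    have hz' : -((w : ℤ) + 1) ∉ its (canon m w) τ := fun h => hz (its_sub _ _ h)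
    rw [its_insert hz hτ, pc_insert_neg (by omega), nc_insert_neg hz' (by omega)]
    rfl
  · refine Finset.sum_congr rfl fun α hα => ?_
    have hnil : [] ∈ W (its (canon m w) α) := by rw [mem_W]; simp
    rw [Finset.sum_eq_single []]
    · rw [its_split hz, its_nil]
      have hiff : Gv (its (canon m w) α) (α ++ [-((w : ℤ) + 1)]) ↔ Gv (its (canon m w) α) α := by
        unfold Gv
        rw [List.pairwise_append]
        constructor
        · rintro ⟨⟨h1, -, -⟩, h2⟩
          exact ⟨h1, fun x hx => h2 x (by simp [hx])⟩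
        · rintro ⟨h1, h2⟩
          refine ⟨⟨h1, List.pairwise_singleton _ _, fun a ha b hb => ?_⟩, fun x hx => ?_⟩
          · have := hmin a ((mem_W.mp hα).2 a ha)
            rw [List.mem_singleton] at hb
            omega
          · rcases List.mem_append.mp hx with h | h
            · exact h2 x h
            · rw [List.mem_singleton] at h
              omega
      by_cases h : Gv (its (canon m w) α) α
      · rw [if_pos h, if_pos (hiff.mpr h)]
      · rw [if_neg h, if_neg (fun h' => h (hiff.mp h'))]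
    · intro β hβ hne
      refine if_neg fun h => ?_
      obtain ⟨b, hb⟩ := List.exists_mem_of_ne_nil _ hne
      have h1 := hmin b (its_sub _ _ ((mem_W.mp hβ).2 b hb))
      have h2 := (List.pairwise_append.mp h.1).2.1
      have h3 := (List.pairwise_cons.mp h2).1 b hb
      omega
    · intro h
      exact absurd hnil h

lemma its_comm (V : Finset ℤ) (α β : List ℤ) : its (its V α) β = its (its V β) α := by
  ext x
  simp only [mem_its]
  tauto

lemma Dom_its_neg (J : Finset ℤ) {κ : List ℤ} (hκ : ∀ x ∈ κ, x < 0) (c : ℤ) :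
    Dom (its J κ) c ↔ Dom J c := by
  unfold Dom
  refine and_congr_right fun hc => ?_
  constructor
  · intro h x hx
    by_cases hxk : x ∈ κ
    · have := hκ x hxk
      omega
    · exact h x (mem_its.mpr ⟨hx, hxk⟩)
  · intro h x hx
    exact h x (its_sub _ _ hx)

lemma Gc_its_neg {cr : List ℤ → List ℤ} (J : Finset ℤ) {κ : List ℤ} (hκ : ∀ x ∈ κ, x < 0)
    (τ : List ℤ) : Gc cr (its J κ) τ ↔ Gc cr J τ := by
  unfold Gc
  refine and_congr_right fun _ => forall₂_congr fun c _ => Dom_its_neg J hκ c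

lemma mem_W_swap {V : Finset ℤ} {κ τ : List ℤ} (hκ : κ ∈ W V) (hτ : τ ∈ W (its V κ)) :
    κ ∈ W (its V τ) ∧ τ ∈ W V := by
  rw [mem_W] at hκ hτ
  refine ⟨mem_W.mpr ⟨hκ.1, fun x hx => ?_⟩,
    mem_W.mpr ⟨hτ.1, fun x hx => its_sub _ _ (hτ.2 x hx)⟩⟩
  rw [mem_its]
  refine ⟨hκ.2 x hx, fun h => ?_⟩
  exact (mem_its.mp (hτ.2 x h)).2 hx

open Classical in
lemma relv_comm {cr : List ℤ → List ℤ} (hcr : CR cr) :
    op Gv * op (Gc cr) = op (Gc cr) * op Gv := by
  refine LinearMap.ext fun φ => ?_
  funext m w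
  change op Gv (op (Gc cr) φ) m w = op (Gc cr) (op Gv φ) m w
  have h0 : ∀ κ : List ℤ, (0 : ℤ) ∉ its (canon m w) κ :=
    fun κ h => zero_canon m w (its_sub _ _ h)
  have hL : op Gv (op (Gc cr) φ) m w =
      ∑ κ ∈ W (canon m w), ∑ τ ∈ W (its (canon m w) κ),
        if Gv (canon m w) κ ∧ Gc cr (its (canon m w) τ) τ then
          φ (pc (its (its (canon m w) κ) τ)) (nc (its (its (canon m w) κ) τ)) else 0 := by
    rw [op_def]
    unfold SG
    refine Finset.sum_congr rfl fun κ hκ => ?_
    by_cases h : Gv (its (canon m w) κ) κ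
    · have h' : Gv (canon m w) κ := h
      rw [if_pos h, ← op_apply (inv_Gc hcr) φ (h0 κ)]
      unfold SG
      refine Finset.sum_congr rfl fun τ hτ => ?_
      have e : Gc cr (its (its (canon m w) κ) τ) τ ↔ Gc cr (its (canon m w) τ) τ := by
        rw [its_comm, Gc_its_neg _ h.2]
      by_cases h2 : Gc cr (its (canon m w) τ) τ
      · rw [if_pos (e.mpr h2), if_pos ⟨h', h2⟩]
      · rw [if_neg (fun h3 => h2 (e.mp h3)), if_neg (fun h3 => h2 h3.2)]
    · have h' : ¬ Gv (canon m w) κ := h
      rw [if_neg h]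
      symm
      refine Finset.sum_eq_zero fun τ _ => ?_
      rw [if_neg (fun h3 => h' h3.1)]
  have hR : op (Gc cr) (op Gv φ) m w =
      ∑ τ ∈ W (canon m w), ∑ κ ∈ W (its (canon m w) τ),
        if Gv (canon m w) κ ∧ Gc cr (its (canon m w) τ) τ then
          φ (pc (its (its (canon m w) κ) τ)) (nc (its (its (canon m w) κ) τ)) else 0 := by
    rw [op_def]
    unfold SG
    refine Finset.sum_congr rfl fun τ hτ => ?_
    by_cases h : Gc cr (its (canon m w) τ) τ
    · rw [if_pos h, ← op_apply inv_Gv φ (h0 τ)]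
      unfold SG
      refine Finset.sum_congr rfl fun κ hκ => ?_
      rw [its_comm (canon m w) τ κ]
      by_cases h2 : Gv (canon m w) κ
      · have h2' : Gv (its (its (canon m w) κ) τ) κ := h2
        rw [if_pos h2', if_pos ⟨h2, h⟩]
      · have h2' : ¬ Gv (its (its (canon m w) κ) τ) κ := h2
        rw [if_neg h2', if_neg (fun h3 => h2 h3.1)]
    · rw [if_neg h]
      symm
      refine Finset.sum_eq_zero fun κ _ => ?_
      rw [if_neg (fun h3 => h h3.2)]
  rw [hL, hR]
  refine Finset.sum_comm' fun κ τ => ?_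
  constructor
  · rintro ⟨h1, h2⟩
    exact mem_W_swap h1 h2
  · rintro ⟨h1, h2⟩
    exact (mem_W_swap h2 h1).symm

/-- All the relations hold. -/
theorem sys : Sys (op (Gc tops)) (op (Gc rtops)) (op Ge) (op Gv) where
  loc_a := op_loc _
  loc_b := op_loc _
  loc_e := op_loc _
  loc_v := op_loc _
  R1 := rel1
  R3 := rel3
  R3' := rel3'
  R2 := rel2
  R4 := rel4
  R5a := rel5 CR_tops
  R5b := rel5 CR_rtops
  R6a := rel6a
  R6e := rel6e
  R6b := rel6b
  va := relv_comm CR_tops
  vb := relv_comm CR_rtops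
  vX := relvX
  dv := reldv
  v0 := relv0
  vF := relvF

end Pool.Agent.H384R3.Vinc
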