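import Pool.Agent.H384R3.Vinc.Count
import Pool.Agent.H384R3.Vinc.Defs

set_option autoImplicit false

/-!
# From words to permutations, and the tree
-/

open Finset

namespace Pool.Agent.H384R3.Vinc

lemma count_childLabels (j k : ℕ) (hk : 1 ≤ k) :
    (childLabels k).count (j + 1) = (if j + 1 ≤ k then j + 1 else 0) + if j = k then 1 else 0 := by
  unfold childLabels
  rw [Multiset.count_add, Multiset.count_add, Multiset.count_sum']
  simp only [Multiset.count_singleton, Multiset.count_replicate]
  rw [Finset.sum_ite_eq']
  simp only [mem_Icc]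
  split_ifs <;> omega

lemma level_pos : ∀ n, ∀ b ∈ levelLabels n, 1 ≤ b := by
  intro n
  induction n with
  | zero => intro b hb; simp [levelLabels] at hb
  | succ n ih =>
    cases n with
    | zero => intro b hb; simp [levelLabels] at hb; omega
    | succ n =>
      intro b hb
      unfold levelLabels at hb
      obtain ⟨k, hk, hb⟩ := Multiset.mem_bind.mp hb
      unfold childLabels at hb
      rw [Multiset.mem_add, Multiset.mem_add, Multiset.mem_sum] at hb
      rcases hb with (hb | ⟨i, hi, hb⟩) | hb
      · rw [Multiset.mem_singleton] at hb; omega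
      · rw [mem_Icc] at hi
        have := Multiset.eq_of_mem_replicate hb
        omega
      · rw [Multiset.mem_singleton] at hb; omega

lemma level_le : ∀ n, ∀ b ∈ levelLabels n, b ≤ n := by
  intro n
  induction n with
  | zero => intro b hb; simp [levelLabels] at hb
  | succ n ih =>
    cases n with
    | zero => intro b hb; simp [levelLabels] at hb; omega
    | succ n =>
      intro b hb
      unfold levelLabels at hb
      obtain ⟨k, hk, hb⟩ := Multiset.mem_bind.mp hb
      have hkn := ih k hk
      have hk1 := level_pos _ k hk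
      unfold childLabels at hb
      rw [Multiset.mem_add, Multiset.mem_add, Multiset.mem_sum] at hb
      rcases hb with (hb | ⟨i, hi, hb⟩) | hb
      · rw [Multiset.mem_singleton] at hb; omega
      · rw [mem_Icc] at hi
        have := Multiset.eq_of_mem_replicate hb
        omega
      · rw [Multiset.mem_singleton] at hb; omega

lemma card_filter_ge (s : Multiset ℕ) (j n : ℕ) (h : ∀ b ∈ s, b < n) :
    (s.filter fun b => j ≤ b).card = ∑ i ∈ Ico j n, s.count i := by
  induction s using Multiset.induction_on with
  | empty => simp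
  | cons a s ih =>
    have ih' := ih (fun b hb => h b (Multiset.mem_cons_of_mem hb))
    have ha := h a (Multiset.mem_cons_self a s)
    have h1 : ∑ i ∈ Ico j n, (a ::ₘ s).count i =
        ∑ i ∈ Ico j n, s.count i + if j ≤ a then 1 else 0 := by
      simp only [Multiset.count_cons]
      rw [Finset.sum_add_distrib]
      congr 1
      simp only [Finset.sum_ite_eq', mem_Ico]
      split_ifs <;> first | rfl | omega
    rw [h1, ← ih', Multiset.filter_cons]
    split_ifs <;> simp [add_comm]

lemma count_level (n j : ℕ) : (levelLabels (n + 2)).count (j + 1) =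
    (j + 1) * (∑ i ∈ Ico (j + 1) (n + 2), (levelLabels (n + 1)).count i) +
      (levelLabels (n + 1)).count j := by
  have h1 : levelLabels (n + 2) = (levelLabels (n + 1)).bind childLabels := rfl
  rw [h1, Multiset.count_bind, ← card_filter_ge _ _ _
    (fun b hb => by have := level_le _ b hb; omega)]
  have h2 : ∀ s : Multiset ℕ, (∀ b ∈ s, 1 ≤ b) →
      (s.map fun b => (childLabels b).count (j + 1)).sum =
        (j + 1) * (s.filter fun b => j + 1 ≤ b).card + s.count j := by
    intro s
    induction s using Multiset.induction_on with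
    | empty => simp
    | cons a s ih =>
      intro hs
      have ih' := ih (fun b hb => hs b (Multiset.mem_cons_of_mem hb))
      have ha := hs a (Multiset.mem_cons_self a s)
      rw [Multiset.map_cons, Multiset.sum_cons, ih', count_childLabels _ _ ha,
        Multiset.count_cons, Multiset.filter_cons]
      by_cases h3 : j + 1 ≤ a
      · rw [if_pos h3, if_pos h3]
        rw [Multiset.card_add, Multiset.card_singleton]
        ring
      · rw [if_neg h3, if_neg h3]
        rw [Multiset.card_add, Multiset.card_zero]
        ring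
  exact h2 _ (level_pos _)

lemma r_level (n : ℕ) : ∀ k : ℕ,
    r (op (Gc tops)) k (n + 1) 0 = ((levelLabels (n + 1)).count k : ℤ) := by
  induction n with
  | zero =>
    intro k
    cases k with
    | zero => simp [r, levelLabels]
    | succ k =>
      rw [sys.recur]
      cases k with
      | zero => simp [r, levelLabels]
      | succ k =>
        have h1 : (levelLabels (0 + 1)).count (k + 1 + 1) = 0 := by
          rw [Multiset.count_eq_zero]
          intro h
          have := level_le _ _ h
          omega
        rw [h1, Sys.r_succ_zero, Ico_eq_empty (by omega)]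
        simp
  | succ n ih =>
    intro k
    cases k with
    | zero =>
      have h1 : (levelLabels (n + 1 + 1)).count 0 = 0 := by
        rw [Multiset.count_eq_zero]
        intro h
        have := level_pos _ _ h
        omega
      rw [h1]
      simp [r]
    | succ k =>
      rw [sys.recur, count_level, ih k]
      push_cast
      congr 2
      refine Finset.sum_congr rfl fun i _ => ih i

/-- The word of a permutation. -/
def word {n : ℕ} (σ : Equiv.Perm (Fin n)) : List ℤ := List.ofFn fun i => ((σ i : ℕ) : ℤ) + 1

lemma Av_iff : ∀ l : List ℤ, Av l ↔ ∀ (i j k : ℕ) (h1 : i + 1 < j) (h2 : j < k)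
    (h3 : k < l.length), ¬ (l[j] < l[i] ∧ l[i] < l[i + 1] ∧ l[i + 1] < l[k])
  | [] => by
    refine iff_of_true trivial ?_
    intro i j k h1 h2 h3
    simp at h3
  | [a] => by
    refine iff_of_true trivial ?_
    intro i j k h1 h2 h3
    simp at h3
    omega
  | a :: b :: l => by
    have h2 : Av (a :: b :: l) ↔
      (a < b → l.Pairwise fun x y => ¬ (x < a ∧ b < y)) ∧ Av (b :: l) := Iff.rfl
    rw [h2, Av_iff (b :: l), List.pairwise_iff_getElem]
    constructor
    · rintro ⟨h3, h4⟩ i j k hij hjk hk
      obtain ⟨j, rfl⟩ : ∃ j', j = j' + 2 := ⟨j - 2, by omega⟩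
      obtain ⟨k, rfl⟩ : ∃ k', k = k' + 2 := ⟨k - 2, by omega⟩
      cases i with
      | zero =>
        simp only [List.getElem_cons_succ, List.getElem_cons_zero]
        rintro ⟨h5, h6, h7⟩
        simp only [List.length_cons] at hk
        exact h3 h6 j k (by omega) (by omega) (by omega) ⟨h5, h7⟩
      | succ i =>
        simp only [List.length_cons] at hk
        have := h4 i (j + 1) (k + 1) (by omega) (by omega) (by simp only [List.length_cons]; omega)
        simpa using this
    · intro h
      constructor
      · intro hab j k hj hk hjk h5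
        have := h 0 (j + 2) (k + 2) (by omega) (by omega) (by simp only [List.length_cons]; omega)
        simp only [List.getElem_cons_succ, List.getElem_cons_zero] at this
        exact this ⟨h5.1, hab, h5.2⟩
      · intro i j k hij hjk hk
        simp only [List.length_cons] at hk
        have := h (i + 1) (j + 1) (k + 1) (by omega) (by omega)
          (by simp only [List.length_cons]; omega)
        simpa using this

lemma Av_word {n : ℕ} (σ : Equiv.Perm (Fin n)) : Av (word σ) ↔ ¬ Contains2314 σ := by
  rw [Av_iff]
  unfold Contains2314 word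
  push Not
  constructor
  · intro h i i' j k h1 h2 h3 h4 h5
    by_contra h6
    have hlen : (k : ℕ) < (List.ofFn fun i => ((σ i : ℕ) : ℤ) + 1).length := by
      rw [List.length_ofFn]; exact k.2
    have := h i j k (by omega) (by omega) hlen
    simp only [List.getElem_ofFn] at this
    have e : (⟨(i : ℕ) + 1, by omega⟩ : Fin n) = i' := Fin.ext h1.symm
    rw [e] at this
    simp only [Fin.eta] at this
    rw [Fin.lt_def] at h4 h5
    rw [not_le, Fin.lt_def] at h6
    have := this (by omega) (by omega)
    omega
  · intro h i j k h1 h2 h3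
    rw [List.length_ofFn] at h3
    simp only [List.getElem_ofFn]
    intro h4 h5
    have := h ⟨i, by omega⟩ ⟨i + 1, by omega⟩ ⟨j, by omega⟩ ⟨k, by omega⟩ rfl
      (by rw [Fin.lt_def]; exact h1) (by rw [Fin.lt_def]; exact h2)
      (by rw [Fin.lt_def]; omega) (by rw [Fin.lt_def]; omega)
    rw [Fin.le_def] at this
    omega

lemma rlm_ofFn : ∀ {n : ℕ} (f : Fin n → ℤ),
    rlm (List.ofFn f) = (univ.filter fun i : Fin n => ∀ j : Fin n, i < j → f i < f j).card := by
  intro n
  induction n with
  | zero => intro f; simp [rlm]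
  | succ n ih =>
    intro f
    rw [List.ofFn_succ, Fin.card_filter_univ_succ]
    have h1 : rlm (f 0 :: List.ofFn fun i => f i.succ) =
      (if ∀ x ∈ List.ofFn (fun i => f i.succ), f 0 < x then 1 else 0) +
        rlm (List.ofFn fun i => f i.succ) := rfl
    rw [h1, ih]
    have h2 : (∀ x ∈ List.ofFn (fun i => f i.succ), f 0 < x) ↔ ∀ j : Fin (n + 1), 0 < j → f 0 < f j := by
      rw [List.forall_mem_ofFn_iff, Fin.forall_fin_succ]
      simp
    have h3 : (univ.filter fun i : Fin n => ∀ j : Fin n, i < j → f i.succ < f j.succ).card =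
        (univ.filter fun i : Fin n => ∀ j : Fin (n + 1), i.succ < j → f i.succ < f j).card := by
      congr 1
      refine filter_congr fun i _ => ?_
      rw [Fin.forall_fin_succ]
      simp
    rw [h3]
    by_cases h4 : ∀ j : Fin (n + 1), 0 < j → f 0 < f j
    · rw [if_pos (h2.mpr h4), if_pos h4, add_comm]
    · rw [if_neg (fun h => h4 (h2.mp h)), if_neg h4]
      simp

lemma rlm_word {n : ℕ} (σ : Equiv.Perm (Fin n)) : rlm (word σ) = rlMinima σ := by
  unfold word rlMinima
  rw [rlm_ofFn]
  congr 1
  refine filter_congr fun i _ => ?_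
  refine forall₂_congr fun j _ => ?_
  rw [Fin.lt_def]
  omega

lemma word_mem {n : ℕ} (σ : Equiv.Perm (Fin n)) : word σ ∈ W (canon n 0) := by
  rw [mem_W]
  unfold word
  constructor
  · rw [List.nodup_ofFn]
    intro i j h
    have : (σ i : ℕ) = (σ j : ℕ) := by
      have h' : ((σ i : ℕ) : ℤ) + 1 = ((σ j : ℕ) : ℤ) + 1 := h
      omega
    exact σ.injective (Fin.ext this)
  · rw [List.forall_mem_ofFn_iff]
    intro i
    rw [mem_canon]
    have := (σ i).2
    omega

lemma word_its {n : ℕ} (σ : Equiv.Perm (Fin n)) : its (canon n 0) (word σ) = ∅ := by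
  rw [Finset.eq_empty_iff_forall_notMem]
  intro x hx
  rw [mem_its, mem_canon] at hx
  refine hx.2 ?_
  unfold word
  rw [List.mem_ofFn]
  have h1 : (x - 1).toNat < n := by omega
  refine ⟨σ.symm ⟨(x - 1).toNat, h1⟩, ?_⟩
  rw [Equiv.apply_symm_apply]
  simp only
  omega

lemma word_inj {n : ℕ} {σ τ : Equiv.Perm (Fin n)} (h : word σ = word τ) : σ = τ := by
  unfold word at h
  have h1 := List.ofFn_injective h
  refine Equiv.ext fun i => ?_
  have h2 := congrFun h1 i
  refine Fin.ext ?_
  omega

lemma word_surj {n : ℕ} {τ : List ℤ} (h1 : τ ∈ W (canon n 0)) (h2 : its (canon n 0) τ = ∅) :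
    ∃ σ : Equiv.Perm (Fin n), word σ = τ := by
  rw [mem_W] at h1
  have hset : τ.toFinset = canon n 0 := by
    ext x
    rw [List.mem_toFinset]
    constructor
    · exact h1.2 x
    · intro hx
      by_contra hxτ
      have : x ∈ its (canon n 0) τ := mem_its.mpr ⟨hx, hxτ⟩
      rw [h2] at this
      exact notMem_empty x this
  have hpos : ∀ x ∈ canon n 0, 0 < x := by
    intro x hx
    rw [mem_canon] at hx
    omega
  have hlen : τ.length = n := by
    rw [← List.toFinset_card_of_nodup h1.1, hset, ← pc_pos hpos, pc_canon]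
  subst hlen
  have hb : ∀ i : Fin τ.length, (τ[i] - 1).toNat < τ.length ∧ 0 < τ[i] := by
    intro i
    have := h1.2 τ[i] (List.getElem_mem _)
    rw [mem_canon] at this
    omega
  set g : Fin τ.length → Fin τ.length := fun i => ⟨(τ[i] - 1).toNat, (hb i).1⟩ with hg
  have hinj : Function.Injective g := by
    intro i j hij
    have h3 : (τ[i] - 1).toNat = (τ[j] - 1).toNat := congrArg Fin.val hij
    have h4 : τ[i] = τ[j] := by
      have := (hb i).2
      have := (hb j).2
      omega
    exact Fin.ext ((List.Nodup.getElem_inj_iff h1.1).mp h4)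
  refine ⟨Equiv.ofBijective g (Finite.injective_iff_bijective.mp hinj), ?_⟩
  unfold word
  refine List.ext_getElem (by simp) fun i hi hi' => ?_
  rw [List.getElem_ofFn]
  have := (hb ⟨i, hi'⟩).2
  simp only [Equiv.ofBijective_apply, hg]
  simp only [Fin.getElem_fin] at this ⊢
  omega

open Classical in
lemma Nk_card (n k : ℕ) : Nk k (canon n 0) =
    (Fintype.card {σ : Equiv.Perm (Fin n) // ¬ Contains2314 σ ∧ rlMinima σ = k} : ℤ) := by
  unfold Nk
  rw [← Finset.sum_filter, Finset.sum_const, Fintype.card_subtype, nsmul_eq_mul, mul_one]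
  congr 1
  symm
  refine Finset.card_bij (fun σ _ => word σ) ?_ ?_ ?_
  · intro σ hσ
    rw [mem_filter] at hσ ⊢
    refine ⟨word_mem σ, word_its σ, (Av_word σ).mpr hσ.2.1, ?_⟩
    rw [rlm_word]
    exact hσ.2.2
  · intro σ _ τ _ h
    exact word_inj h
  · intro τ hτ
    rw [mem_filter] at hτ
    obtain ⟨σ, rfl⟩ := word_surj hτ.1 hτ.2.1
    refine ⟨σ, ?_, rfl⟩
    rw [mem_filter]
    refine ⟨mem_univ _, (Av_word σ).mp hτ.2.2.1, ?_⟩
    rw [← rlm_word]
    exact hτ.2.2.2

open Classical in
theorem refined (n k : ℕ) (hn : 1 ≤ n) :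
    Fintype.card {σ : Equiv.Perm (Fin n) // ¬ Contains2314 σ ∧ rlMinima σ = k} =
      (levelLabels n).count k := by
  obtain ⟨n, rfl⟩ : ∃ m, n = m + 1 := ⟨n - 1, by omega⟩
  have hpos : ∀ x ∈ canon (n + 1) 0, 0 < x := by
    intro x hx
    rw [mem_canon] at hx
    omega
  have h1 := Nk_card (n + 1) k
  rw [Nk_eq k _ hpos, ← pc_pos hpos, pc_canon, r_level] at h1
  exact_mod_cast h1.symm

lemma rlMinima_le {n : ℕ} (σ : Equiv.Perm (Fin n)) : rlMinima σ ≤ n := by
  unfold rlMinima
  refine (card_filter_le _ _).trans ?_
  simp

open Classical in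
theorem total (n : ℕ) (hn : 1 ≤ n) :
    Fintype.card {σ : Equiv.Perm (Fin n) // ¬ Contains2314 σ} = (levelLabels n).card := by
  have h1 : (levelLabels n).card = ∑ k ∈ Ico 0 (n + 1), (levelLabels n).count k := by
    rw [← card_filter_ge _ _ _ (fun b hb => by have := level_le _ b hb; omega)]
    simp
  rw [h1, Fintype.card_subtype]
  rw [Finset.card_eq_sum_card_fiberwise (f := fun σ => rlMinima σ) (t := Ico 0 (n + 1))]
  · refine Finset.sum_congr rfl fun k _ => ?_
    rw [← refined n k hn, Fintype.card_subtype, filter_filter]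
  · intro σ _
    have := rlMinima_le σ
    simp only [coe_Ico, Set.mem_Ico]
    omega

end Pool.Agent.H384R3.Vinc
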