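import Pool.Agent.H384R3.Vinc.Alg

set_option autoImplicit false

/-!
# Words and their ascent tops
-/

open Finset

namespace Pool.Agent.H384R3.Vinc

/-- Number of positive elements. -/
def pc (V : Finset ℤ) : ℕ := (V.filter fun x => 0 < x).card

/-- Number of negative elements. -/
def nc (V : Finset ℤ) : ℕ := (V.filter fun x => x < 0).card

/-- Words without repetition with letters in `V`. -/
def W (V : Finset ℤ) : Finset (List ℤ) := V.powerset.biUnion fun S => S.val.lists.toFinset

lemma mem_W {V : Finset ℤ} {l : List ℤ} : l ∈ W V ↔ l.Nodup ∧ ∀ x ∈ l, x ∈ V := by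
  unfold W
  simp only [mem_biUnion, mem_powerset, Multiset.mem_toFinset, Multiset.mem_lists_iff]
  constructor
  · rintro ⟨S, hS, h⟩
    have hn : l.Nodup := by
      have := S.nodup
      rw [h] at this
      exact this
    refine ⟨hn, fun x hx => hS ?_⟩
    rw [← Finset.mem_val, h]
    exact hx
  · rintro ⟨hn, h⟩
    exact ⟨⟨l, hn⟩, fun x hx => h x hx, rfl⟩

/-- The unused elements. -/
def its (V : Finset ℤ) (l : List ℤ) : Finset ℤ := V.filter fun x => x ∉ l

lemma mem_its {V : Finset ℤ} {l : List ℤ} {x : ℤ} : x ∈ its V l ↔ x ∈ V ∧ x ∉ l := by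
  simp [its]

lemma its_nil (V : Finset ℤ) : its V [] = V := by
  ext x; simp [mem_its]

/-- Avoidance of the vincular pattern, by recursion. -/
def Av : List ℤ → Prop
  | [] => True
  | [_] => True
  | a :: b :: l => (a < b → l.Pairwise fun x y => ¬ (x < a ∧ b < y)) ∧ Av (b :: l)

/-- The ascent tops. -/
def tops : List ℤ → List ℤ
  | [] => []
  | [_] => []
  | a :: b :: l => if a < b then b :: tops (b :: l) else tops (b :: l)

/-- The first letter and the ascent tops. -/
def rtops : List ℤ → List ℤ
  | [] => []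
  | a :: l => a :: tops (a :: l)

lemma tops_sub : ∀ (l : List ℤ), ∀ x ∈ tops l, x ∈ l
  | [], x, h => h
  | [_], x, h => by simp [tops] at h
  | a :: b :: l, x, h => by
    unfold tops at h
    split_ifs at h with hab
    · rcases List.mem_cons.mp h with h | h
      · simp [h]
      · exact List.mem_cons_of_mem _ (tops_sub (b :: l) x h)
    · exact List.mem_cons_of_mem _ (tops_sub (b :: l) x h)

lemma rtops_sub : ∀ (l : List ℤ), ∀ x ∈ rtops l, x ∈ l
  | [], x, h => h
  | a :: l, x, h => by
    rcases List.mem_cons.mp h with h | h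
    · simp [h]
    · exact tops_sub _ x h

lemma Av_map (f : ℤ → ℤ) : ∀ (l : List ℤ), (∀ x ∈ l, ∀ y ∈ l, (f x < f y ↔ x < y)) →
    (Av (l.map f) ↔ Av l)
  | [], _ => Iff.rfl
  | [_], _ => Iff.rfl
  | a :: b :: l, h => by
    have ih := Av_map f (b :: l) (fun x hx y hy =>
      h x (List.mem_cons_of_mem _ hx) y (List.mem_cons_of_mem _ hy))
    have h1 : Av ((a :: b :: l).map f) ↔
      (f a < f b → (l.map f).Pairwise fun x y => ¬ (x < f a ∧ f b < y)) ∧
        Av ((b :: l).map f) := Iff.rfl
    rw [h1, ih]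
    have h2 : Av (a :: b :: l) ↔
      (a < b → l.Pairwise fun x y => ¬ (x < a ∧ b < y)) ∧ Av (b :: l) := Iff.rfl
    rw [h2, List.pairwise_map, h a (by simp) b (by simp)]
    refine and_congr_left fun _ => imp_congr_right fun _ => ?_
    refine List.Pairwise.iff_of_mem fun {x y} hx hy => ?_
    rw [h x (by simp [hx]) a (by simp), h b (by simp) y (by simp [hy])]

lemma tops_map (f : ℤ → ℤ) : ∀ (l : List ℤ), (∀ x ∈ l, ∀ y ∈ l, (f x < f y ↔ x < y)) →
    tops (l.map f) = (tops l).map f
  | [], _ => rfl
  | [_], _ => rfl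
  | a :: b :: l, h => by
    have ih := tops_map f (b :: l) (fun x hx y hy =>
      h x (List.mem_cons_of_mem _ hx) y (List.mem_cons_of_mem _ hy))
    have h1 : tops ((a :: b :: l).map f) =
      if f a < f b then f b :: tops ((b :: l).map f) else tops ((b :: l).map f) := rfl
    have h2 : tops (a :: b :: l) = if a < b then b :: tops (b :: l) else tops (b :: l) := rfl
    rw [h1, h2, ih]
    by_cases hab : a < b
    · rw [if_pos hab, if_pos ((h a (by simp) b (by simp)).mpr hab)]
      rfl
    · rw [if_neg hab, if_neg (fun h' => hab ((h a (by simp) b (by simp)).mp h'))]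

lemma rtops_map (f : ℤ → ℤ) (l : List ℤ) (h : ∀ x ∈ l, ∀ y ∈ l, (f x < f y ↔ x < y)) :
    rtops (l.map f) = (rtops l).map f := by
  cases l with
  | nil => rfl
  | cons a l =>
    have h1 : rtops ((a :: l).map f) = f a :: tops ((a :: l).map f) := rfl
    rw [h1, tops_map f _ h]
    rfl

lemma Av_min_cons {z : ℤ} : ∀ {β : List ℤ}, (∀ x ∈ β, z < x) → (Av (z :: β) ↔ Av β)
  | [], _ => Iff.rfl
  | y :: β, h => by
    have h1 : Av (z :: y :: β) ↔
      (z < y → β.Pairwise fun x y' => ¬ (x < z ∧ y < y')) ∧ Av (y :: β) := Iff.rfl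
    rw [h1]
    refine and_iff_right fun _ => ?_
    refine List.Pairwise.imp_of_mem (R := fun _ _ => True) ?_ (List.pairwise_of_forall (by simp))
    intro x y' hx _ _ h2
    exact absurd h2.1 (not_lt.mpr (h x (by simp [hx])).le)

lemma Av_split {z : ℤ} : ∀ {α β : List ℤ}, (α ++ z :: β).Nodup → (∀ x ∈ α, z < x) →
    (∀ x ∈ β, z < x) → (Av (α ++ z :: β) ↔ Av α ∧ Av β ∧ ∀ c ∈ tops α, ∀ x ∈ β, x < c)
  | [], β, _, _, hβ => by
    simp [Av_min_cons hβ, Av, tops]
  | [a], β, _, hα, hβ => by
    have h1 : Av ([a] ++ z :: β) ↔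
      (a < z → β.Pairwise fun x y' => ¬ (x < a ∧ z < y')) ∧ Av (z :: β) := Iff.rfl
    rw [h1, Av_min_cons hβ]
    have : ¬ a < z := not_lt.mpr (hα a (by simp)).le
    simp [this, Av, tops]
  | a :: b :: l, β, hn, hα, hβ => by
    have hn' : (b :: l ++ z :: β).Nodup := (List.nodup_cons.mp hn).2
    have ih := Av_split (z := z) (α := b :: l) (β := β) hn'
      (fun x hx => hα x (List.mem_cons_of_mem _ hx)) hβ
    have h1 : Av (a :: b :: l ++ z :: β) ↔
      (a < b → (l ++ z :: β).Pairwise fun x y => ¬ (x < a ∧ b < y)) ∧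
        Av (b :: l ++ z :: β) := Iff.rfl
    have h2 : Av (a :: b :: l) ↔
      (a < b → l.Pairwise fun x y => ¬ (x < a ∧ b < y)) ∧ Av (b :: l) := Iff.rfl
    rw [h1, h2, ih]
    have h3 : tops (a :: b :: l) = if a < b then b :: tops (b :: l) else tops (b :: l) := rfl
    rw [h3]
    by_cases hab : a < b
    · rw [if_pos hab]
      have hza : z < a := hα a (by simp)
      have hzb : z < b := hα b (by simp)
      have hbβ : b ∉ β := by
        intro hb
        have := (List.nodup_cons.mp hn').1
        exact this (by simp [hb])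
      have key : ((l ++ z :: β).Pairwise fun x y => ¬ (x < a ∧ b < y)) ↔
          (l.Pairwise fun x y => ¬ (x < a ∧ b < y)) ∧ ∀ x ∈ β, x < b := by
        rw [List.pairwise_append, List.pairwise_cons]
        constructor
        · rintro ⟨h4, ⟨h5, -⟩, -⟩
          refine ⟨h4, fun x hx => ?_⟩
          have h6 := h5 x hx
          have h7 : ¬ b < x := fun h => h6 ⟨hza, h⟩
          have h8 : x ≠ b := fun h => hbβ (h ▸ hx)
          omega
        · rintro ⟨h4, h5⟩
          refine ⟨h4, ⟨fun y hy h => ?_, ?_⟩, fun x _ y hy h => ?_⟩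
          · have := h5 y hy
            omega
          · refine List.Pairwise.imp_of_mem (R := fun _ _ => True) ?_
              (List.pairwise_of_forall (by simp))
            intro x y' _ hy _ h2
            have := h5 y' hy
            omega
          · rcases List.mem_cons.mp hy with h6 | h6
            · omega
            · have := h5 y h6
              omega
      rw [key]
      simp only [List.mem_cons, forall_eq_or_imp]
      tauto
    · rw [if_neg hab]
      simp only [hab, false_imp_iff, true_and]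

lemma tops_min_cons {z : ℤ} : ∀ {β : List ℤ}, (∀ x ∈ β, z < x) → tops (z :: β) = rtops β
  | [], _ => rfl
  | y :: β, h => by
    have h1 : tops (z :: y :: β) = if z < y then y :: tops (y :: β) else tops (y :: β) := rfl
    rw [h1, if_pos (h y (by simp))]
    rfl

lemma tops_split {z : ℤ} : ∀ {α β : List ℤ}, (∀ x ∈ α, z < x) →
    (∀ x ∈ β, z < x) → tops (α ++ z :: β) = tops α ++ rtops β
  | [], β, _, hβ => by
    simp [tops_min_cons hβ, tops]
  | [a], β, hα, hβ => by
    have h1 : tops ([a] ++ z :: β) = if a < z then z :: tops (z :: β) else tops (z :: β) := rfl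
    have : ¬ a < z := not_lt.mpr (hα a (by simp)).le
    rw [h1, if_neg this, tops_min_cons hβ]
    rfl
  | a :: b :: l, β, hα, hβ => by
    have ih := tops_split (z := z) (α := b :: l) (β := β)
      (fun x hx => hα x (List.mem_cons_of_mem _ hx)) hβ
    have h1 : tops (a :: b :: l ++ z :: β) =
      if a < b then b :: tops (b :: l ++ z :: β) else tops (b :: l ++ z :: β) := rfl
    have h3 : tops (a :: b :: l) = if a < b then b :: tops (b :: l) else tops (b :: l) := rfl
    rw [h1, h3, ih]
    split_ifs <;> simp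

lemma tops_eq_nil : ∀ {l : List ℤ}, l.Nodup → (tops l = [] ↔ l.Pairwise (· > ·))
  | [], _ => by simp [tops]
  | [a], _ => by simp [tops]
  | a :: b :: l, hn => by
    have hn' : (b :: l).Nodup := (List.nodup_cons.mp hn).2
    have ih := tops_eq_nil hn'
    have h3 : tops (a :: b :: l) = if a < b then b :: tops (b :: l) else tops (b :: l) := rfl
    have hne : a ≠ b := by
      intro h
      exact (List.nodup_cons.mp hn).1 (by simp [h])
    rw [h3, List.pairwise_cons]
    by_cases hab : a < b
    · rw [if_pos hab]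
      constructor
      · intro h; simp at h
      · rintro ⟨h, -⟩
        have := h b (by simp)
        omega
    · rw [if_neg hab, ih]
      constructor
      · intro h
        refine ⟨fun x hx => ?_, h⟩
        rcases List.mem_cons.mp hx with h1 | h1
        · omega
        · have := (List.pairwise_cons.mp h).1 x h1
          omega
      · exact fun h => h.2

lemma Av_of_tops_nil : ∀ {l : List ℤ}, tops l = [] → Av l
  | [], _ => trivial
  | [a], _ => trivial
  | a :: b :: l, h => by
    have h3 : tops (a :: b :: l) = if a < b then b :: tops (b :: l) else tops (b :: l) := rfl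
    rw [h3] at h
    by_cases hab : a < b
    · rw [if_pos hab] at h; simp at h
    · rw [if_neg hab] at h
      exact ⟨fun h' => absurd h' hab, Av_of_tops_nil h⟩

lemma append_inj_aux {z : ℤ} : ∀ {α α' β β' : List ℤ}, z ∉ α → z ∉ α' →
    α ++ z :: β = α' ++ z :: β' → α = α' ∧ β = β'
  | [], [], β, β', _, _, h => by simpa using h
  | [], a' :: α', β, β', _, h', h => by
    simp only [List.nil_append, List.cons_append, List.cons.injEq] at h
    exact absurd (by simp [h.1]) h'
  | a :: α, [], β, β', h', _, h => by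
    simp only [List.nil_append, List.cons_append, List.cons.injEq] at h
    exact absurd (by simp [h.1]) h'
  | a :: α, a' :: α', β, β', h1, h2, h => by
    simp only [List.cons_append, List.cons.injEq] at h
    have := append_inj_aux (fun h' => h1 (by simp [h'])) (fun h' => h2 (by simp [h'])) h.2
    exact ⟨by rw [h.1, this.1], this.2⟩

lemma mem_split {V : Finset ℤ} {z : ℤ} (hz : z ∉ V) {α β : List ℤ} (hα : α ∈ W V)
    (hβ : β ∈ W (its V α)) : α ++ z :: β ∈ W (insert z V) := by
  rw [mem_W] at *
  obtain ⟨h1, h2⟩ := hα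
  obtain ⟨h3, h4⟩ := hβ
  constructor
  · rw [List.nodup_append]
    refine ⟨h1, List.nodup_cons.mpr ⟨fun h => ?_, h3⟩, ?_⟩
    · exact hz (mem_its.mp (h4 z h)).1
    · intro a ha b hb hab
      rcases List.mem_cons.mp hb with h5 | h5
      · exact hz (h5 ▸ hab ▸ h2 a ha)
      · exact (mem_its.mp (h4 b h5)).2 (hab ▸ ha)
  · intro x hx
    rcases List.mem_append.mp hx with h5 | h5
    · exact mem_insert_of_mem (h2 x h5)
    · rcases List.mem_cons.mp h5 with h6 | h6
      · simp [h6]
      · exact mem_insert_of_mem (mem_its.mp (h4 x h6)).1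

/-- Splitting the words containing a new letter at that letter. -/
lemma sum_W_insert {V : Finset ℤ} {z : ℤ} (hz : z ∉ V) (F : List ℤ → ℤ) :
    ∑ τ ∈ W (insert z V), F τ =
      ∑ τ ∈ W V, F τ + ∑ α ∈ W V, ∑ β ∈ W (its V α), F (α ++ z :: β) := by
  rw [← Finset.sum_filter_add_sum_filter_not (W (insert z V)) (fun τ => z ∉ τ)]
  congr 1
  · congr 1
    ext τ
    simp only [mem_filter, mem_W, mem_insert]
    constructor
    · rintro ⟨⟨h1, h2⟩, h3⟩
      refine ⟨h1, fun x hx => ?_⟩
      rcases h2 x hx with h | h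
      · exact absurd (h ▸ hx) h3
      · exact h
    · rintro ⟨h1, h2⟩
      exact ⟨⟨h1, fun x hx => Or.inr (h2 x hx)⟩, fun h => hz (h2 z h)⟩
  · rw [Finset.sum_sigma']
    symm
    refine Finset.sum_bij (fun p _ => p.1 ++ z :: p.2) ?_ ?_ ?_ ?_
    · rintro ⟨α, β⟩ hp
      simp only [mem_sigma] at hp
      rw [mem_filter]
      exact ⟨mem_split hz hp.1 hp.2, by simp⟩
    · rintro ⟨α, β⟩ hp ⟨α', β'⟩ hp' h
      simp only [mem_sigma] at hp hp'
      have h1 : z ∉ α := fun h => hz ((mem_W.mp hp.1).2 z h)
      have h2 : z ∉ α' := fun h => hz ((mem_W.mp hp'.1).2 z h)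
      obtain ⟨h3, h4⟩ := append_inj_aux h1 h2 h
      subst h3; subst h4; rfl
    · intro τ hτ
      rw [mem_filter, mem_W, not_not] at hτ
      obtain ⟨⟨h1, h2⟩, h3⟩ := hτ
      obtain ⟨α, β, rfl⟩ := List.append_of_mem h3
      rw [List.nodup_append] at h1
      obtain ⟨h4, h5, h6⟩ := h1
      rw [List.nodup_cons] at h5
      refine ⟨⟨α, β⟩, ?_, rfl⟩
      simp only [mem_sigma, mem_W]
      refine ⟨⟨h4, fun x hx => ?_⟩, h5.2, fun x hx => ?_⟩
      · rcases mem_insert.mp (h2 x (by simp [hx])) with h | h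
        · exact absurd h (h6 x hx z (by simp))
        · exact h
      · rw [mem_its]
        refine ⟨?_, fun h => h6 x h x (by simp [hx]) rfl⟩
        rcases mem_insert.mp (h2 x (by simp [hx])) with h | h
        · exact absurd (h ▸ hx) h5.1
        · exact h
    · intro p _
      rfl

lemma its_split {V : Finset ℤ} {z : ℤ} (hz : z ∉ V) (α β : List ℤ) :
    its (insert z V) (α ++ z :: β) = its (its V α) β := by
  ext x
  simp only [mem_its, mem_insert, List.mem_append, List.mem_cons]
  constructor
  · rintro ⟨h1, h2⟩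
    push Not at h2
    exact ⟨⟨h1.resolve_left h2.2.1, h2.1⟩, h2.2.2⟩
  · rintro ⟨⟨h1, h2⟩, h3⟩
    refine ⟨Or.inr h1, ?_⟩
    push Not
    exact ⟨h2, fun h => hz (h ▸ h1), h3⟩

lemma its_insert {V : Finset ℤ} {z : ℤ} (hz : z ∉ V) {τ : List ℤ} (hτ : τ ∈ W V) :
    its (insert z V) τ = insert z (its V τ) := by
  have h1 : z ∉ τ := fun h => hz ((mem_W.mp hτ).2 z h)
  ext x
  simp only [mem_its, mem_insert]
  constructor
  · rintro ⟨h2 | h2, h3⟩
    · exact Or.inl h2
    · exact Or.inr ⟨h2, h3⟩
  · rintro (h2 | h2)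
    · exact ⟨Or.inl h2, h2 ▸ h1⟩
    · exact ⟨Or.inr h2.1, h2.2⟩

end Pool.Agent.H384R3.Vinc
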